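import Mathlib

/-!
# Four-dimensional curvature algebra for the Hitchin–Thorpe inequality of Riemannian submersions

Tensors `R i j k l` on `Fin 4` that are skew in the first two indices and symmetric under exchange of
the two pairs.  Curvature convention: `R i j j i` is a sectional curvature, `ric R i j = ∑ k, R i k k j`.
-/

set_option linter.unusedSimpArgs false

namespace Pool.Agent.H84.HT

open Finset

/-- The Ricci contraction `∑ k, R i k k j`. -/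
def ric {ι : Type*} [Fintype ι] (R : ι → ι → ι → ι → ℝ) (i j : ι) : ℝ := ∑ k, R i k k j

/-- Skew in the first two indices and symmetric under exchange of the pairs. -/
structure SkewPair (R : Fin 4 → Fin 4 → Fin 4 → Fin 4 → ℝ) : Prop where
  skew : ∀ i j k l, R i j k l = - R j i k l
  pair : ∀ i j k l, R i j k l = R k l i j

namespace SkewPair

variable {R : Fin 4 → Fin 4 → Fin 4 → Fin 4 → ℝ} (h : SkewPair R)
include h

theorem skew' (i j k l : Fin 4) : R i j k l = - R i j l k := by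
  rw [h.pair, h.skew, h.pair]

theorem diag (i k l : Fin 4) : R i i k l = 0 := by
  have := h.skew i i k l; linarith

theorem diag' (i j k : Fin 4) : R i j k k = 0 := by
  have := h.skew' i j k k; linarith

/-- The full square norm in terms of the 21 independent components. -/
theorem sum_sq : ∑ i, ∑ j, ∑ k, ∑ l, R i j k l ^ 2 =
    4 * ((R 0 1 0 1) ^ 2 + 2 * (R 0 1 0 2) ^ 2 + 2 * (R 0 1 0 3) ^ 2 + 2 * (R 0 1 1 2) ^ 2 + 2 * (R 0 1 1 3) ^ 2 + 2 * (R 0 1 2 3) ^ 2 + (R 0 2 0 2) ^ 2 + 2 * (R 0 2 0 3) ^ 2 + 2 * (R 0 2 1 2) ^ 2 + 2 * (R 0 2 1 3) ^ 2 + 2 * (R 0 2 2 3) ^ 2 + (R 0 3 0 3) ^ 2 + 2 * (R 0 3 1 2) ^ 2 + 2 * (R 0 3 1 3) ^ 2 + 2 * (R 0 3 2 3) ^ 2 + (R 1 2 1 2) ^ 2 + 2 * (R 1 2 1 3) ^ 2 + 2 * (R 1 2 2 3) ^ 2 + (R 1 3 1 3) ^ 2 + 2 * (R 1 3 2 3) ^ 2 + (R 2 3 2 3) ^ 2) := by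
  have s10 : ∀ k l, R 1 0 k l = - R 0 1 k l := fun k l => h.skew 1 0 k l
  have t10 : ∀ k l, R k l 1 0 = - R k l 0 1 := fun k l => h.skew' k l 1 0
  have s20 : ∀ k l, R 2 0 k l = - R 0 2 k l := fun k l => h.skew 2 0 k l
  have t20 : ∀ k l, R k l 2 0 = - R k l 0 2 := fun k l => h.skew' k l 2 0
  have s30 : ∀ k l, R 3 0 k l = - R 0 3 k l := fun k l => h.skew 3 0 k l
  have t30 : ∀ k l, R k l 3 0 = - R k l 0 3 := fun k l => h.skew' k l 3 0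
  have s21 : ∀ k l, R 2 1 k l = - R 1 2 k l := fun k l => h.skew 2 1 k l
  have t21 : ∀ k l, R k l 2 1 = - R k l 1 2 := fun k l => h.skew' k l 2 1
  have s31 : ∀ k l, R 3 1 k l = - R 1 3 k l := fun k l => h.skew 3 1 k l
  have t31 : ∀ k l, R k l 3 1 = - R k l 1 3 := fun k l => h.skew' k l 3 1
  have s32 : ∀ k l, R 3 2 k l = - R 2 3 k l := fun k l => h.skew 3 2 k l
  have t32 : ∀ k l, R k l 3 2 = - R k l 2 3 := fun k l => h.skew' k l 3 2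
  have d0 : ∀ k l, R 0 0 k l = 0 := fun k l => h.diag 0 k l
  have e0 : ∀ k l, R k l 0 0 = 0 := fun k l => h.diag' k l 0
  have d1 : ∀ k l, R 1 1 k l = 0 := fun k l => h.diag 1 k l
  have e1 : ∀ k l, R k l 1 1 = 0 := fun k l => h.diag' k l 1
  have d2 : ∀ k l, R 2 2 k l = 0 := fun k l => h.diag 2 k l
  have e2 : ∀ k l, R k l 2 2 = 0 := fun k l => h.diag' k l 2
  have d3 : ∀ k l, R 3 3 k l = 0 := fun k l => h.diag 3 k l
  have e3 : ∀ k l, R k l 3 3 = 0 := fun k l => h.diag' k l 3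
  have p0201 : R 0 2 0 1 = R 0 1 0 2 := h.pair 0 2 0 1
  have p0301 : R 0 3 0 1 = R 0 1 0 3 := h.pair 0 3 0 1
  have p0302 : R 0 3 0 2 = R 0 2 0 3 := h.pair 0 3 0 2
  have p1201 : R 1 2 0 1 = R 0 1 1 2 := h.pair 1 2 0 1
  have p1202 : R 1 2 0 2 = R 0 2 1 2 := h.pair 1 2 0 2
  have p1203 : R 1 2 0 3 = R 0 3 1 2 := h.pair 1 2 0 3
  have p1301 : R 1 3 0 1 = R 0 1 1 3 := h.pair 1 3 0 1
  have p1302 : R 1 3 0 2 = R 0 2 1 3 := h.pair 1 3 0 2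
  have p1303 : R 1 3 0 3 = R 0 3 1 3 := h.pair 1 3 0 3
  have p1312 : R 1 3 1 2 = R 1 2 1 3 := h.pair 1 3 1 2
  have p2301 : R 2 3 0 1 = R 0 1 2 3 := h.pair 2 3 0 1
  have p2302 : R 2 3 0 2 = R 0 2 2 3 := h.pair 2 3 0 2
  have p2303 : R 2 3 0 3 = R 0 3 2 3 := h.pair 2 3 0 3
  have p2312 : R 2 3 1 2 = R 1 2 2 3 := h.pair 2 3 1 2
  have p2313 : R 2 3 1 3 = R 1 3 2 3 := h.pair 2 3 1 3
  simp only [Fin.sum_univ_four, s10, t10, s20, t20, s30, t30, s21, t21, s31, t31, s32, t32, d0, e0, d1, e1, d2, e2, d3, e3, p0201, p0301, p0302, p1201, p1202, p1203, p1301, p1302, p1303, p1312, p2301, p2302, p2303, p2312, p2313]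
  ring

theorem ric00 : ric R 0 0 = -R 0 1 0 1 - R 0 2 0 2 - R 0 3 0 3 := by
  have s10 : ∀ k l, R 1 0 k l = - R 0 1 k l := fun k l => h.skew 1 0 k l
  have t10 : ∀ k l, R k l 1 0 = - R k l 0 1 := fun k l => h.skew' k l 1 0
  have s20 : ∀ k l, R 2 0 k l = - R 0 2 k l := fun k l => h.skew 2 0 k l
  have t20 : ∀ k l, R k l 2 0 = - R k l 0 2 := fun k l => h.skew' k l 2 0
  have s30 : ∀ k l, R 3 0 k l = - R 0 3 k l := fun k l => h.skew 3 0 k l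
  have t30 : ∀ k l, R k l 3 0 = - R k l 0 3 := fun k l => h.skew' k l 3 0
  have s21 : ∀ k l, R 2 1 k l = - R 1 2 k l := fun k l => h.skew 2 1 k l
  have t21 : ∀ k l, R k l 2 1 = - R k l 1 2 := fun k l => h.skew' k l 2 1
  have s31 : ∀ k l, R 3 1 k l = - R 1 3 k l := fun k l => h.skew 3 1 k l
  have t31 : ∀ k l, R k l 3 1 = - R k l 1 3 := fun k l => h.skew' k l 3 1
  have s32 : ∀ k l, R 3 2 k l = - R 2 3 k l := fun k l => h.skew 3 2 k l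
  have t32 : ∀ k l, R k l 3 2 = - R k l 2 3 := fun k l => h.skew' k l 3 2
  have d0 : ∀ k l, R 0 0 k l = 0 := fun k l => h.diag 0 k l
  have e0 : ∀ k l, R k l 0 0 = 0 := fun k l => h.diag' k l 0
  have d1 : ∀ k l, R 1 1 k l = 0 := fun k l => h.diag 1 k l
  have e1 : ∀ k l, R k l 1 1 = 0 := fun k l => h.diag' k l 1
  have d2 : ∀ k l, R 2 2 k l = 0 := fun k l => h.diag 2 k l
  have e2 : ∀ k l, R k l 2 2 = 0 := fun k l => h.diag' k l 2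
  have d3 : ∀ k l, R 3 3 k l = 0 := fun k l => h.diag 3 k l
  have e3 : ∀ k l, R k l 3 3 = 0 := fun k l => h.diag' k l 3
  have p0201 : R 0 2 0 1 = R 0 1 0 2 := h.pair 0 2 0 1
  have p0301 : R 0 3 0 1 = R 0 1 0 3 := h.pair 0 3 0 1
  have p0302 : R 0 3 0 2 = R 0 2 0 3 := h.pair 0 3 0 2
  have p1201 : R 1 2 0 1 = R 0 1 1 2 := h.pair 1 2 0 1
  have p1202 : R 1 2 0 2 = R 0 2 1 2 := h.pair 1 2 0 2
  have p1203 : R 1 2 0 3 = R 0 3 1 2 := h.pair 1 2 0 3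
  have p1301 : R 1 3 0 1 = R 0 1 1 3 := h.pair 1 3 0 1
  have p1302 : R 1 3 0 2 = R 0 2 1 3 := h.pair 1 3 0 2
  have p1303 : R 1 3 0 3 = R 0 3 1 3 := h.pair 1 3 0 3
  have p1312 : R 1 3 1 2 = R 1 2 1 3 := h.pair 1 3 1 2
  have p2301 : R 2 3 0 1 = R 0 1 2 3 := h.pair 2 3 0 1
  have p2302 : R 2 3 0 2 = R 0 2 2 3 := h.pair 2 3 0 2
  have p2303 : R 2 3 0 3 = R 0 3 2 3 := h.pair 2 3 0 3
  have p2312 : R 2 3 1 2 = R 1 2 2 3 := h.pair 2 3 1 2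
  have p2313 : R 2 3 1 3 = R 1 3 2 3 := h.pair 2 3 1 3
  simp only [ric, Fin.sum_univ_four, s10, t10, s20, t20, s30, t30, s21, t21, s31, t31, s32, t32, d0, e0, d1, e1, d2, e2, d3, e3, p0201, p0301, p0302, p1201, p1202, p1203, p1301, p1302, p1303, p1312, p2301, p2302, p2303, p2312, p2313]
  ring

theorem ric01 : ric R 0 1 = -R 0 2 1 2 - R 0 3 1 3 := by
  have s10 : ∀ k l, R 1 0 k l = - R 0 1 k l := fun k l => h.skew 1 0 k l
  have t10 : ∀ k l, R k l 1 0 = - R k l 0 1 := fun k l => h.skew' k l 1 0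
  have s20 : ∀ k l, R 2 0 k l = - R 0 2 k l := fun k l => h.skew 2 0 k l
  have t20 : ∀ k l, R k l 2 0 = - R k l 0 2 := fun k l => h.skew' k l 2 0
  have s30 : ∀ k l, R 3 0 k l = - R 0 3 k l := fun k l => h.skew 3 0 k l
  have t30 : ∀ k l, R k l 3 0 = - R k l 0 3 := fun k l => h.skew' k l 3 0
  have s21 : ∀ k l, R 2 1 k l = - R 1 2 k l := fun k l => h.skew 2 1 k l
  have t21 : ∀ k l, R k l 2 1 = - R k l 1 2 := fun k l => h.skew' k l 2 1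
  have s31 : ∀ k l, R 3 1 k l = - R 1 3 k l := fun k l => h.skew 3 1 k l
  have t31 : ∀ k l, R k l 3 1 = - R k l 1 3 := fun k l => h.skew' k l 3 1
  have s32 : ∀ k l, R 3 2 k l = - R 2 3 k l := fun k l => h.skew 3 2 k l
  have t32 : ∀ k l, R k l 3 2 = - R k l 2 3 := fun k l => h.skew' k l 3 2
  have d0 : ∀ k l, R 0 0 k l = 0 := fun k l => h.diag 0 k l
  have e0 : ∀ k l, R k l 0 0 = 0 := fun k l => h.diag' k l 0
  have d1 : ∀ k l, R 1 1 k l = 0 := fun k l => h.diag 1 k l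
  have e1 : ∀ k l, R k l 1 1 = 0 := fun k l => h.diag' k l 1
  have d2 : ∀ k l, R 2 2 k l = 0 := fun k l => h.diag 2 k l
  have e2 : ∀ k l, R k l 2 2 = 0 := fun k l => h.diag' k l 2
  have d3 : ∀ k l, R 3 3 k l = 0 := fun k l => h.diag 3 k l
  have e3 : ∀ k l, R k l 3 3 = 0 := fun k l => h.diag' k l 3
  have p0201 : R 0 2 0 1 = R 0 1 0 2 := h.pair 0 2 0 1
  have p0301 : R 0 3 0 1 = R 0 1 0 3 := h.pair 0 3 0 1
  have p0302 : R 0 3 0 2 = R 0 2 0 3 := h.pair 0 3 0 2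
  have p1201 : R 1 2 0 1 = R 0 1 1 2 := h.pair 1 2 0 1
  have p1202 : R 1 2 0 2 = R 0 2 1 2 := h.pair 1 2 0 2
  have p1203 : R 1 2 0 3 = R 0 3 1 2 := h.pair 1 2 0 3
  have p1301 : R 1 3 0 1 = R 0 1 1 3 := h.pair 1 3 0 1
  have p1302 : R 1 3 0 2 = R 0 2 1 3 := h.pair 1 3 0 2
  have p1303 : R 1 3 0 3 = R 0 3 1 3 := h.pair 1 3 0 3
  have p1312 : R 1 3 1 2 = R 1 2 1 3 := h.pair 1 3 1 2
  have p2301 : R 2 3 0 1 = R 0 1 2 3 := h.pair 2 3 0 1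
  have p2302 : R 2 3 0 2 = R 0 2 2 3 := h.pair 2 3 0 2
  have p2303 : R 2 3 0 3 = R 0 3 2 3 := h.pair 2 3 0 3
  have p2312 : R 2 3 1 2 = R 1 2 2 3 := h.pair 2 3 1 2
  have p2313 : R 2 3 1 3 = R 1 3 2 3 := h.pair 2 3 1 3
  simp only [ric, Fin.sum_univ_four, s10, t10, s20, t20, s30, t30, s21, t21, s31, t31, s32, t32, d0, e0, d1, e1, d2, e2, d3, e3, p0201, p0301, p0302, p1201, p1202, p1203, p1301, p1302, p1303, p1312, p2301, p2302, p2303, p2312, p2313]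
  ring

theorem ric02 : ric R 0 2 = R 0 1 1 2 - R 0 3 2 3 := by
  have s10 : ∀ k l, R 1 0 k l = - R 0 1 k l := fun k l => h.skew 1 0 k l
  have t10 : ∀ k l, R k l 1 0 = - R k l 0 1 := fun k l => h.skew' k l 1 0
  have s20 : ∀ k l, R 2 0 k l = - R 0 2 k l := fun k l => h.skew 2 0 k l
  have t20 : ∀ k l, R k l 2 0 = - R k l 0 2 := fun k l => h.skew' k l 2 0
  have s30 : ∀ k l, R 3 0 k l = - R 0 3 k l := fun k l => h.skew 3 0 k l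
  have t30 : ∀ k l, R k l 3 0 = - R k l 0 3 := fun k l => h.skew' k l 3 0
  have s21 : ∀ k l, R 2 1 k l = - R 1 2 k l := fun k l => h.skew 2 1 k l
  have t21 : ∀ k l, R k l 2 1 = - R k l 1 2 := fun k l => h.skew' k l 2 1
  have s31 : ∀ k l, R 3 1 k l = - R 1 3 k l := fun k l => h.skew 3 1 k l
  have t31 : ∀ k l, R k l 3 1 = - R k l 1 3 := fun k l => h.skew' k l 3 1
  have s32 : ∀ k l, R 3 2 k l = - R 2 3 k l := fun k l => h.skew 3 2 k l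
  have t32 : ∀ k l, R k l 3 2 = - R k l 2 3 := fun k l => h.skew' k l 3 2
  have d0 : ∀ k l, R 0 0 k l = 0 := fun k l => h.diag 0 k l
  have e0 : ∀ k l, R k l 0 0 = 0 := fun k l => h.diag' k l 0
  have d1 : ∀ k l, R 1 1 k l = 0 := fun k l => h.diag 1 k l
  have e1 : ∀ k l, R k l 1 1 = 0 := fun k l => h.diag' k l 1
  have d2 : ∀ k l, R 2 2 k l = 0 := fun k l => h.diag 2 k l
  have e2 : ∀ k l, R k l 2 2 = 0 := fun k l => h.diag' k l 2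
  have d3 : ∀ k l, R 3 3 k l = 0 := fun k l => h.diag 3 k l
  have e3 : ∀ k l, R k l 3 3 = 0 := fun k l => h.diag' k l 3
  have p0201 : R 0 2 0 1 = R 0 1 0 2 := h.pair 0 2 0 1
  have p0301 : R 0 3 0 1 = R 0 1 0 3 := h.pair 0 3 0 1
  have p0302 : R 0 3 0 2 = R 0 2 0 3 := h.pair 0 3 0 2
  have p1201 : R 1 2 0 1 = R 0 1 1 2 := h.pair 1 2 0 1
  have p1202 : R 1 2 0 2 = R 0 2 1 2 := h.pair 1 2 0 2
  have p1203 : R 1 2 0 3 = R 0 3 1 2 := h.pair 1 2 0 3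
  have p1301 : R 1 3 0 1 = R 0 1 1 3 := h.pair 1 3 0 1
  have p1302 : R 1 3 0 2 = R 0 2 1 3 := h.pair 1 3 0 2
  have p1303 : R 1 3 0 3 = R 0 3 1 3 := h.pair 1 3 0 3
  have p1312 : R 1 3 1 2 = R 1 2 1 3 := h.pair 1 3 1 2
  have p2301 : R 2 3 0 1 = R 0 1 2 3 := h.pair 2 3 0 1
  have p2302 : R 2 3 0 2 = R 0 2 2 3 := h.pair 2 3 0 2
  have p2303 : R 2 3 0 3 = R 0 3 2 3 := h.pair 2 3 0 3
  have p2312 : R 2 3 1 2 = R 1 2 2 3 := h.pair 2 3 1 2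
  have p2313 : R 2 3 1 3 = R 1 3 2 3 := h.pair 2 3 1 3
  simp only [ric, Fin.sum_univ_four, s10, t10, s20, t20, s30, t30, s21, t21, s31, t31, s32, t32, d0, e0, d1, e1, d2, e2, d3, e3, p0201, p0301, p0302, p1201, p1202, p1203, p1301, p1302, p1303, p1312, p2301, p2302, p2303, p2312, p2313]
  ring

theorem ric03 : ric R 0 3 = R 0 1 1 3 + R 0 2 2 3 := by
  have s10 : ∀ k l, R 1 0 k l = - R 0 1 k l := fun k l => h.skew 1 0 k l
  have t10 : ∀ k l, R k l 1 0 = - R k l 0 1 := fun k l => h.skew' k l 1 0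
  have s20 : ∀ k l, R 2 0 k l = - R 0 2 k l := fun k l => h.skew 2 0 k l
  have t20 : ∀ k l, R k l 2 0 = - R k l 0 2 := fun k l => h.skew' k l 2 0
  have s30 : ∀ k l, R 3 0 k l = - R 0 3 k l := fun k l => h.skew 3 0 k l
  have t30 : ∀ k l, R k l 3 0 = - R k l 0 3 := fun k l => h.skew' k l 3 0
  have s21 : ∀ k l, R 2 1 k l = - R 1 2 k l := fun k l => h.skew 2 1 k l
  have t21 : ∀ k l, R k l 2 1 = - R k l 1 2 := fun k l => h.skew' k l 2 1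
  have s31 : ∀ k l, R 3 1 k l = - R 1 3 k l := fun k l => h.skew 3 1 k l
  have t31 : ∀ k l, R k l 3 1 = - R k l 1 3 := fun k l => h.skew' k l 3 1
  have s32 : ∀ k l, R 3 2 k l = - R 2 3 k l := fun k l => h.skew 3 2 k l
  have t32 : ∀ k l, R k l 3 2 = - R k l 2 3 := fun k l => h.skew' k l 3 2
  have d0 : ∀ k l, R 0 0 k l = 0 := fun k l => h.diag 0 k l
  have e0 : ∀ k l, R k l 0 0 = 0 := fun k l => h.diag' k l 0
  have d1 : ∀ k l, R 1 1 k l = 0 := fun k l => h.diag 1 k l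
  have e1 : ∀ k l, R k l 1 1 = 0 := fun k l => h.diag' k l 1
  have d2 : ∀ k l, R 2 2 k l = 0 := fun k l => h.diag 2 k l
  have e2 : ∀ k l, R k l 2 2 = 0 := fun k l => h.diag' k l 2
  have d3 : ∀ k l, R 3 3 k l = 0 := fun k l => h.diag 3 k l
  have e3 : ∀ k l, R k l 3 3 = 0 := fun k l => h.diag' k l 3
  have p0201 : R 0 2 0 1 = R 0 1 0 2 := h.pair 0 2 0 1
  have p0301 : R 0 3 0 1 = R 0 1 0 3 := h.pair 0 3 0 1
  have p0302 : R 0 3 0 2 = R 0 2 0 3 := h.pair 0 3 0 2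
  have p1201 : R 1 2 0 1 = R 0 1 1 2 := h.pair 1 2 0 1
  have p1202 : R 1 2 0 2 = R 0 2 1 2 := h.pair 1 2 0 2
  have p1203 : R 1 2 0 3 = R 0 3 1 2 := h.pair 1 2 0 3
  have p1301 : R 1 3 0 1 = R 0 1 1 3 := h.pair 1 3 0 1
  have p1302 : R 1 3 0 2 = R 0 2 1 3 := h.pair 1 3 0 2
  have p1303 : R 1 3 0 3 = R 0 3 1 3 := h.pair 1 3 0 3
  have p1312 : R 1 3 1 2 = R 1 2 1 3 := h.pair 1 3 1 2
  have p2301 : R 2 3 0 1 = R 0 1 2 3 := h.pair 2 3 0 1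
  have p2302 : R 2 3 0 2 = R 0 2 2 3 := h.pair 2 3 0 2
  have p2303 : R 2 3 0 3 = R 0 3 2 3 := h.pair 2 3 0 3
  have p2312 : R 2 3 1 2 = R 1 2 2 3 := h.pair 2 3 1 2
  have p2313 : R 2 3 1 3 = R 1 3 2 3 := h.pair 2 3 1 3
  simp only [ric, Fin.sum_univ_four, s10, t10, s20, t20, s30, t30, s21, t21, s31, t31, s32, t32, d0, e0, d1, e1, d2, e2, d3, e3, p0201, p0301, p0302, p1201, p1202, p1203, p1301, p1302, p1303, p1312, p2301, p2302, p2303, p2312, p2313]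
  ring

theorem ric10 : ric R 1 0 = -R 0 2 1 2 - R 0 3 1 3 := by
  have s10 : ∀ k l, R 1 0 k l = - R 0 1 k l := fun k l => h.skew 1 0 k l
  have t10 : ∀ k l, R k l 1 0 = - R k l 0 1 := fun k l => h.skew' k l 1 0
  have s20 : ∀ k l, R 2 0 k l = - R 0 2 k l := fun k l => h.skew 2 0 k l
  have t20 : ∀ k l, R k l 2 0 = - R k l 0 2 := fun k l => h.skew' k l 2 0
  have s30 : ∀ k l, R 3 0 k l = - R 0 3 k l := fun k l => h.skew 3 0 k l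
  have t30 : ∀ k l, R k l 3 0 = - R k l 0 3 := fun k l => h.skew' k l 3 0
  have s21 : ∀ k l, R 2 1 k l = - R 1 2 k l := fun k l => h.skew 2 1 k l
  have t21 : ∀ k l, R k l 2 1 = - R k l 1 2 := fun k l => h.skew' k l 2 1
  have s31 : ∀ k l, R 3 1 k l = - R 1 3 k l := fun k l => h.skew 3 1 k l
  have t31 : ∀ k l, R k l 3 1 = - R k l 1 3 := fun k l => h.skew' k l 3 1
  have s32 : ∀ k l, R 3 2 k l = - R 2 3 k l := fun k l => h.skew 3 2 k l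
  have t32 : ∀ k l, R k l 3 2 = - R k l 2 3 := fun k l => h.skew' k l 3 2
  have d0 : ∀ k l, R 0 0 k l = 0 := fun k l => h.diag 0 k l
  have e0 : ∀ k l, R k l 0 0 = 0 := fun k l => h.diag' k l 0
  have d1 : ∀ k l, R 1 1 k l = 0 := fun k l => h.diag 1 k l
  have e1 : ∀ k l, R k l 1 1 = 0 := fun k l => h.diag' k l 1
  have d2 : ∀ k l, R 2 2 k l = 0 := fun k l => h.diag 2 k l
  have e2 : ∀ k l, R k l 2 2 = 0 := fun k l => h.diag' k l 2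
  have d3 : ∀ k l, R 3 3 k l = 0 := fun k l => h.diag 3 k l
  have e3 : ∀ k l, R k l 3 3 = 0 := fun k l => h.diag' k l 3
  have p0201 : R 0 2 0 1 = R 0 1 0 2 := h.pair 0 2 0 1
  have p0301 : R 0 3 0 1 = R 0 1 0 3 := h.pair 0 3 0 1
  have p0302 : R 0 3 0 2 = R 0 2 0 3 := h.pair 0 3 0 2
  have p1201 : R 1 2 0 1 = R 0 1 1 2 := h.pair 1 2 0 1
  have p1202 : R 1 2 0 2 = R 0 2 1 2 := h.pair 1 2 0 2
  have p1203 : R 1 2 0 3 = R 0 3 1 2 := h.pair 1 2 0 3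
  have p1301 : R 1 3 0 1 = R 0 1 1 3 := h.pair 1 3 0 1
  have p1302 : R 1 3 0 2 = R 0 2 1 3 := h.pair 1 3 0 2
  have p1303 : R 1 3 0 3 = R 0 3 1 3 := h.pair 1 3 0 3
  have p1312 : R 1 3 1 2 = R 1 2 1 3 := h.pair 1 3 1 2
  have p2301 : R 2 3 0 1 = R 0 1 2 3 := h.pair 2 3 0 1
  have p2302 : R 2 3 0 2 = R 0 2 2 3 := h.pair 2 3 0 2
  have p2303 : R 2 3 0 3 = R 0 3 2 3 := h.pair 2 3 0 3
  have p2312 : R 2 3 1 2 = R 1 2 2 3 := h.pair 2 3 1 2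
  have p2313 : R 2 3 1 3 = R 1 3 2 3 := h.pair 2 3 1 3
  simp only [ric, Fin.sum_univ_four, s10, t10, s20, t20, s30, t30, s21, t21, s31, t31, s32, t32, d0, e0, d1, e1, d2, e2, d3, e3, p0201, p0301, p0302, p1201, p1202, p1203, p1301, p1302, p1303, p1312, p2301, p2302, p2303, p2312, p2313]
  ring

theorem ric11 : ric R 1 1 = -R 0 1 0 1 - R 1 2 1 2 - R 1 3 1 3 := by
  have s10 : ∀ k l, R 1 0 k l = - R 0 1 k l := fun k l => h.skew 1 0 k l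
  have t10 : ∀ k l, R k l 1 0 = - R k l 0 1 := fun k l => h.skew' k l 1 0
  have s20 : ∀ k l, R 2 0 k l = - R 0 2 k l := fun k l => h.skew 2 0 k l
  have t20 : ∀ k l, R k l 2 0 = - R k l 0 2 := fun k l => h.skew' k l 2 0
  have s30 : ∀ k l, R 3 0 k l = - R 0 3 k l := fun k l => h.skew 3 0 k l
  have t30 : ∀ k l, R k l 3 0 = - R k l 0 3 := fun k l => h.skew' k l 3 0
  have s21 : ∀ k l, R 2 1 k l = - R 1 2 k l := fun k l => h.skew 2 1 k l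
  have t21 : ∀ k l, R k l 2 1 = - R k l 1 2 := fun k l => h.skew' k l 2 1
  have s31 : ∀ k l, R 3 1 k l = - R 1 3 k l := fun k l => h.skew 3 1 k l
  have t31 : ∀ k l, R k l 3 1 = - R k l 1 3 := fun k l => h.skew' k l 3 1
  have s32 : ∀ k l, R 3 2 k l = - R 2 3 k l := fun k l => h.skew 3 2 k l
  have t32 : ∀ k l, R k l 3 2 = - R k l 2 3 := fun k l => h.skew' k l 3 2
  have d0 : ∀ k l, R 0 0 k l = 0 := fun k l => h.diag 0 k l
  have e0 : ∀ k l, R k l 0 0 = 0 := fun k l => h.diag' k l 0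
  have d1 : ∀ k l, R 1 1 k l = 0 := fun k l => h.diag 1 k l
  have e1 : ∀ k l, R k l 1 1 = 0 := fun k l => h.diag' k l 1
  have d2 : ∀ k l, R 2 2 k l = 0 := fun k l => h.diag 2 k l
  have e2 : ∀ k l, R k l 2 2 = 0 := fun k l => h.diag' k l 2
  have d3 : ∀ k l, R 3 3 k l = 0 := fun k l => h.diag 3 k l
  have e3 : ∀ k l, R k l 3 3 = 0 := fun k l => h.diag' k l 3
  have p0201 : R 0 2 0 1 = R 0 1 0 2 := h.pair 0 2 0 1
  have p0301 : R 0 3 0 1 = R 0 1 0 3 := h.pair 0 3 0 1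
  have p0302 : R 0 3 0 2 = R 0 2 0 3 := h.pair 0 3 0 2
  have p1201 : R 1 2 0 1 = R 0 1 1 2 := h.pair 1 2 0 1
  have p1202 : R 1 2 0 2 = R 0 2 1 2 := h.pair 1 2 0 2
  have p1203 : R 1 2 0 3 = R 0 3 1 2 := h.pair 1 2 0 3
  have p1301 : R 1 3 0 1 = R 0 1 1 3 := h.pair 1 3 0 1
  have p1302 : R 1 3 0 2 = R 0 2 1 3 := h.pair 1 3 0 2
  have p1303 : R 1 3 0 3 = R 0 3 1 3 := h.pair 1 3 0 3
  have p1312 : R 1 3 1 2 = R 1 2 1 3 := h.pair 1 3 1 2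
  have p2301 : R 2 3 0 1 = R 0 1 2 3 := h.pair 2 3 0 1
  have p2302 : R 2 3 0 2 = R 0 2 2 3 := h.pair 2 3 0 2
  have p2303 : R 2 3 0 3 = R 0 3 2 3 := h.pair 2 3 0 3
  have p2312 : R 2 3 1 2 = R 1 2 2 3 := h.pair 2 3 1 2
  have p2313 : R 2 3 1 3 = R 1 3 2 3 := h.pair 2 3 1 3
  simp only [ric, Fin.sum_univ_four, s10, t10, s20, t20, s30, t30, s21, t21, s31, t31, s32, t32, d0, e0, d1, e1, d2, e2, d3, e3, p0201, p0301, p0302, p1201, p1202, p1203, p1301, p1302, p1303, p1312, p2301, p2302, p2303, p2312, p2313]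
  ring

theorem ric12 : ric R 1 2 = -R 0 1 0 2 - R 1 3 2 3 := by
  have s10 : ∀ k l, R 1 0 k l = - R 0 1 k l := fun k l => h.skew 1 0 k l
  have t10 : ∀ k l, R k l 1 0 = - R k l 0 1 := fun k l => h.skew' k l 1 0
  have s20 : ∀ k l, R 2 0 k l = - R 0 2 k l := fun k l => h.skew 2 0 k l
  have t20 : ∀ k l, R k l 2 0 = - R k l 0 2 := fun k l => h.skew' k l 2 0
  have s30 : ∀ k l, R 3 0 k l = - R 0 3 k l := fun k l => h.skew 3 0 k l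
  have t30 : ∀ k l, R k l 3 0 = - R k l 0 3 := fun k l => h.skew' k l 3 0
  have s21 : ∀ k l, R 2 1 k l = - R 1 2 k l := fun k l => h.skew 2 1 k l
  have t21 : ∀ k l, R k l 2 1 = - R k l 1 2 := fun k l => h.skew' k l 2 1
  have s31 : ∀ k l, R 3 1 k l = - R 1 3 k l := fun k l => h.skew 3 1 k l
  have t31 : ∀ k l, R k l 3 1 = - R k l 1 3 := fun k l => h.skew' k l 3 1
  have s32 : ∀ k l, R 3 2 k l = - R 2 3 k l := fun k l => h.skew 3 2 k l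
  have t32 : ∀ k l, R k l 3 2 = - R k l 2 3 := fun k l => h.skew' k l 3 2
  have d0 : ∀ k l, R 0 0 k l = 0 := fun k l => h.diag 0 k l
  have e0 : ∀ k l, R k l 0 0 = 0 := fun k l => h.diag' k l 0
  have d1 : ∀ k l, R 1 1 k l = 0 := fun k l => h.diag 1 k l
  have e1 : ∀ k l, R k l 1 1 = 0 := fun k l => h.diag' k l 1
  have d2 : ∀ k l, R 2 2 k l = 0 := fun k l => h.diag 2 k l
  have e2 : ∀ k l, R k l 2 2 = 0 := fun k l => h.diag' k l 2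
  have d3 : ∀ k l, R 3 3 k l = 0 := fun k l => h.diag 3 k l
  have e3 : ∀ k l, R k l 3 3 = 0 := fun k l => h.diag' k l 3
  have p0201 : R 0 2 0 1 = R 0 1 0 2 := h.pair 0 2 0 1
  have p0301 : R 0 3 0 1 = R 0 1 0 3 := h.pair 0 3 0 1
  have p0302 : R 0 3 0 2 = R 0 2 0 3 := h.pair 0 3 0 2
  have p1201 : R 1 2 0 1 = R 0 1 1 2 := h.pair 1 2 0 1
  have p1202 : R 1 2 0 2 = R 0 2 1 2 := h.pair 1 2 0 2
  have p1203 : R 1 2 0 3 = R 0 3 1 2 := h.pair 1 2 0 3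
  have p1301 : R 1 3 0 1 = R 0 1 1 3 := h.pair 1 3 0 1
  have p1302 : R 1 3 0 2 = R 0 2 1 3 := h.pair 1 3 0 2
  have p1303 : R 1 3 0 3 = R 0 3 1 3 := h.pair 1 3 0 3
  have p1312 : R 1 3 1 2 = R 1 2 1 3 := h.pair 1 3 1 2
  have p2301 : R 2 3 0 1 = R 0 1 2 3 := h.pair 2 3 0 1
  have p2302 : R 2 3 0 2 = R 0 2 2 3 := h.pair 2 3 0 2
  have p2303 : R 2 3 0 3 = R 0 3 2 3 := h.pair 2 3 0 3
  have p2312 : R 2 3 1 2 = R 1 2 2 3 := h.pair 2 3 1 2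
  have p2313 : R 2 3 1 3 = R 1 3 2 3 := h.pair 2 3 1 3
  simp only [ric, Fin.sum_univ_four, s10, t10, s20, t20, s30, t30, s21, t21, s31, t31, s32, t32, d0, e0, d1, e1, d2, e2, d3, e3, p0201, p0301, p0302, p1201, p1202, p1203, p1301, p1302, p1303, p1312, p2301, p2302, p2303, p2312, p2313]
  ring

theorem ric13 : ric R 1 3 = -R 0 1 0 3 + R 1 2 2 3 := by
  have s10 : ∀ k l, R 1 0 k l = - R 0 1 k l := fun k l => h.skew 1 0 k l
  have t10 : ∀ k l, R k l 1 0 = - R k l 0 1 := fun k l => h.skew' k l 1 0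
  have s20 : ∀ k l, R 2 0 k l = - R 0 2 k l := fun k l => h.skew 2 0 k l
  have t20 : ∀ k l, R k l 2 0 = - R k l 0 2 := fun k l => h.skew' k l 2 0
  have s30 : ∀ k l, R 3 0 k l = - R 0 3 k l := fun k l => h.skew 3 0 k l
  have t30 : ∀ k l, R k l 3 0 = - R k l 0 3 := fun k l => h.skew' k l 3 0
  have s21 : ∀ k l, R 2 1 k l = - R 1 2 k l := fun k l => h.skew 2 1 k l
  have t21 : ∀ k l, R k l 2 1 = - R k l 1 2 := fun k l => h.skew' k l 2 1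
  have s31 : ∀ k l, R 3 1 k l = - R 1 3 k l := fun k l => h.skew 3 1 k l
  have t31 : ∀ k l, R k l 3 1 = - R k l 1 3 := fun k l => h.skew' k l 3 1
  have s32 : ∀ k l, R 3 2 k l = - R 2 3 k l := fun k l => h.skew 3 2 k l
  have t32 : ∀ k l, R k l 3 2 = - R k l 2 3 := fun k l => h.skew' k l 3 2
  have d0 : ∀ k l, R 0 0 k l = 0 := fun k l => h.diag 0 k l
  have e0 : ∀ k l, R k l 0 0 = 0 := fun k l => h.diag' k l 0
  have d1 : ∀ k l, R 1 1 k l = 0 := fun k l => h.diag 1 k l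
  have e1 : ∀ k l, R k l 1 1 = 0 := fun k l => h.diag' k l 1
  have d2 : ∀ k l, R 2 2 k l = 0 := fun k l => h.diag 2 k l
  have e2 : ∀ k l, R k l 2 2 = 0 := fun k l => h.diag' k l 2
  have d3 : ∀ k l, R 3 3 k l = 0 := fun k l => h.diag 3 k l
  have e3 : ∀ k l, R k l 3 3 = 0 := fun k l => h.diag' k l 3
  have p0201 : R 0 2 0 1 = R 0 1 0 2 := h.pair 0 2 0 1
  have p0301 : R 0 3 0 1 = R 0 1 0 3 := h.pair 0 3 0 1
  have p0302 : R 0 3 0 2 = R 0 2 0 3 := h.pair 0 3 0 2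
  have p1201 : R 1 2 0 1 = R 0 1 1 2 := h.pair 1 2 0 1
  have p1202 : R 1 2 0 2 = R 0 2 1 2 := h.pair 1 2 0 2
  have p1203 : R 1 2 0 3 = R 0 3 1 2 := h.pair 1 2 0 3
  have p1301 : R 1 3 0 1 = R 0 1 1 3 := h.pair 1 3 0 1
  have p1302 : R 1 3 0 2 = R 0 2 1 3 := h.pair 1 3 0 2
  have p1303 : R 1 3 0 3 = R 0 3 1 3 := h.pair 1 3 0 3
  have p1312 : R 1 3 1 2 = R 1 2 1 3 := h.pair 1 3 1 2
  have p2301 : R 2 3 0 1 = R 0 1 2 3 := h.pair 2 3 0 1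
  have p2302 : R 2 3 0 2 = R 0 2 2 3 := h.pair 2 3 0 2
  have p2303 : R 2 3 0 3 = R 0 3 2 3 := h.pair 2 3 0 3
  have p2312 : R 2 3 1 2 = R 1 2 2 3 := h.pair 2 3 1 2
  have p2313 : R 2 3 1 3 = R 1 3 2 3 := h.pair 2 3 1 3
  simp only [ric, Fin.sum_univ_four, s10, t10, s20, t20, s30, t30, s21, t21, s31, t31, s32, t32, d0, e0, d1, e1, d2, e2, d3, e3, p0201, p0301, p0302, p1201, p1202, p1203, p1301, p1302, p1303, p1312, p2301, p2302, p2303, p2312, p2313]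
  ring

theorem ric20 : ric R 2 0 = R 0 1 1 2 - R 0 3 2 3 := by
  have s10 : ∀ k l, R 1 0 k l = - R 0 1 k l := fun k l => h.skew 1 0 k l
  have t10 : ∀ k l, R k l 1 0 = - R k l 0 1 := fun k l => h.skew' k l 1 0
  have s20 : ∀ k l, R 2 0 k l = - R 0 2 k l := fun k l => h.skew 2 0 k l
  have t20 : ∀ k l, R k l 2 0 = - R k l 0 2 := fun k l => h.skew' k l 2 0
  have s30 : ∀ k l, R 3 0 k l = - R 0 3 k l := fun k l => h.skew 3 0 k l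
  have t30 : ∀ k l, R k l 3 0 = - R k l 0 3 := fun k l => h.skew' k l 3 0
  have s21 : ∀ k l, R 2 1 k l = - R 1 2 k l := fun k l => h.skew 2 1 k l
  have t21 : ∀ k l, R k l 2 1 = - R k l 1 2 := fun k l => h.skew' k l 2 1
  have s31 : ∀ k l, R 3 1 k l = - R 1 3 k l := fun k l => h.skew 3 1 k l
  have t31 : ∀ k l, R k l 3 1 = - R k l 1 3 := fun k l => h.skew' k l 3 1
  have s32 : ∀ k l, R 3 2 k l = - R 2 3 k l := fun k l => h.skew 3 2 k l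
  have t32 : ∀ k l, R k l 3 2 = - R k l 2 3 := fun k l => h.skew' k l 3 2
  have d0 : ∀ k l, R 0 0 k l = 0 := fun k l => h.diag 0 k l
  have e0 : ∀ k l, R k l 0 0 = 0 := fun k l => h.diag' k l 0
  have d1 : ∀ k l, R 1 1 k l = 0 := fun k l => h.diag 1 k l
  have e1 : ∀ k l, R k l 1 1 = 0 := fun k l => h.diag' k l 1
  have d2 : ∀ k l, R 2 2 k l = 0 := fun k l => h.diag 2 k l
  have e2 : ∀ k l, R k l 2 2 = 0 := fun k l => h.diag' k l 2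
  have d3 : ∀ k l, R 3 3 k l = 0 := fun k l => h.diag 3 k l
  have e3 : ∀ k l, R k l 3 3 = 0 := fun k l => h.diag' k l 3
  have p0201 : R 0 2 0 1 = R 0 1 0 2 := h.pair 0 2 0 1
  have p0301 : R 0 3 0 1 = R 0 1 0 3 := h.pair 0 3 0 1
  have p0302 : R 0 3 0 2 = R 0 2 0 3 := h.pair 0 3 0 2
  have p1201 : R 1 2 0 1 = R 0 1 1 2 := h.pair 1 2 0 1
  have p1202 : R 1 2 0 2 = R 0 2 1 2 := h.pair 1 2 0 2
  have p1203 : R 1 2 0 3 = R 0 3 1 2 := h.pair 1 2 0 3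
  have p1301 : R 1 3 0 1 = R 0 1 1 3 := h.pair 1 3 0 1
  have p1302 : R 1 3 0 2 = R 0 2 1 3 := h.pair 1 3 0 2
  have p1303 : R 1 3 0 3 = R 0 3 1 3 := h.pair 1 3 0 3
  have p1312 : R 1 3 1 2 = R 1 2 1 3 := h.pair 1 3 1 2
  have p2301 : R 2 3 0 1 = R 0 1 2 3 := h.pair 2 3 0 1
  have p2302 : R 2 3 0 2 = R 0 2 2 3 := h.pair 2 3 0 2
  have p2303 : R 2 3 0 3 = R 0 3 2 3 := h.pair 2 3 0 3
  have p2312 : R 2 3 1 2 = R 1 2 2 3 := h.pair 2 3 1 2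
  have p2313 : R 2 3 1 3 = R 1 3 2 3 := h.pair 2 3 1 3
  simp only [ric, Fin.sum_univ_four, s10, t10, s20, t20, s30, t30, s21, t21, s31, t31, s32, t32, d0, e0, d1, e1, d2, e2, d3, e3, p0201, p0301, p0302, p1201, p1202, p1203, p1301, p1302, p1303, p1312, p2301, p2302, p2303, p2312, p2313]
  ring

theorem ric21 : ric R 2 1 = -R 0 1 0 2 - R 1 3 2 3 := by
  have s10 : ∀ k l, R 1 0 k l = - R 0 1 k l := fun k l => h.skew 1 0 k l
  have t10 : ∀ k l, R k l 1 0 = - R k l 0 1 := fun k l => h.skew' k l 1 0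
  have s20 : ∀ k l, R 2 0 k l = - R 0 2 k l := fun k l => h.skew 2 0 k l
  have t20 : ∀ k l, R k l 2 0 = - R k l 0 2 := fun k l => h.skew' k l 2 0
  have s30 : ∀ k l, R 3 0 k l = - R 0 3 k l := fun k l => h.skew 3 0 k l
  have t30 : ∀ k l, R k l 3 0 = - R k l 0 3 := fun k l => h.skew' k l 3 0
  have s21 : ∀ k l, R 2 1 k l = - R 1 2 k l := fun k l => h.skew 2 1 k l
  have t21 : ∀ k l, R k l 2 1 = - R k l 1 2 := fun k l => h.skew' k l 2 1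
  have s31 : ∀ k l, R 3 1 k l = - R 1 3 k l := fun k l => h.skew 3 1 k l
  have t31 : ∀ k l, R k l 3 1 = - R k l 1 3 := fun k l => h.skew' k l 3 1
  have s32 : ∀ k l, R 3 2 k l = - R 2 3 k l := fun k l => h.skew 3 2 k l
  have t32 : ∀ k l, R k l 3 2 = - R k l 2 3 := fun k l => h.skew' k l 3 2
  have d0 : ∀ k l, R 0 0 k l = 0 := fun k l => h.diag 0 k l
  have e0 : ∀ k l, R k l 0 0 = 0 := fun k l => h.diag' k l 0
  have d1 : ∀ k l, R 1 1 k l = 0 := fun k l => h.diag 1 k l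
  have e1 : ∀ k l, R k l 1 1 = 0 := fun k l => h.diag' k l 1
  have d2 : ∀ k l, R 2 2 k l = 0 := fun k l => h.diag 2 k l
  have e2 : ∀ k l, R k l 2 2 = 0 := fun k l => h.diag' k l 2
  have d3 : ∀ k l, R 3 3 k l = 0 := fun k l => h.diag 3 k l
  have e3 : ∀ k l, R k l 3 3 = 0 := fun k l => h.diag' k l 3
  have p0201 : R 0 2 0 1 = R 0 1 0 2 := h.pair 0 2 0 1
  have p0301 : R 0 3 0 1 = R 0 1 0 3 := h.pair 0 3 0 1
  have p0302 : R 0 3 0 2 = R 0 2 0 3 := h.pair 0 3 0 2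
  have p1201 : R 1 2 0 1 = R 0 1 1 2 := h.pair 1 2 0 1
  have p1202 : R 1 2 0 2 = R 0 2 1 2 := h.pair 1 2 0 2
  have p1203 : R 1 2 0 3 = R 0 3 1 2 := h.pair 1 2 0 3
  have p1301 : R 1 3 0 1 = R 0 1 1 3 := h.pair 1 3 0 1
  have p1302 : R 1 3 0 2 = R 0 2 1 3 := h.pair 1 3 0 2
  have p1303 : R 1 3 0 3 = R 0 3 1 3 := h.pair 1 3 0 3
  have p1312 : R 1 3 1 2 = R 1 2 1 3 := h.pair 1 3 1 2
  have p2301 : R 2 3 0 1 = R 0 1 2 3 := h.pair 2 3 0 1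
  have p2302 : R 2 3 0 2 = R 0 2 2 3 := h.pair 2 3 0 2
  have p2303 : R 2 3 0 3 = R 0 3 2 3 := h.pair 2 3 0 3
  have p2312 : R 2 3 1 2 = R 1 2 2 3 := h.pair 2 3 1 2
  have p2313 : R 2 3 1 3 = R 1 3 2 3 := h.pair 2 3 1 3
  simp only [ric, Fin.sum_univ_four, s10, t10, s20, t20, s30, t30, s21, t21, s31, t31, s32, t32, d0, e0, d1, e1, d2, e2, d3, e3, p0201, p0301, p0302, p1201, p1202, p1203, p1301, p1302, p1303, p1312, p2301, p2302, p2303, p2312, p2313]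
  ring

theorem ric22 : ric R 2 2 = -R 0 2 0 2 - R 1 2 1 2 - R 2 3 2 3 := by
  have s10 : ∀ k l, R 1 0 k l = - R 0 1 k l := fun k l => h.skew 1 0 k l
  have t10 : ∀ k l, R k l 1 0 = - R k l 0 1 := fun k l => h.skew' k l 1 0
  have s20 : ∀ k l, R 2 0 k l = - R 0 2 k l := fun k l => h.skew 2 0 k l
  have t20 : ∀ k l, R k l 2 0 = - R k l 0 2 := fun k l => h.skew' k l 2 0
  have s30 : ∀ k l, R 3 0 k l = - R 0 3 k l := fun k l => h.skew 3 0 k l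
  have t30 : ∀ k l, R k l 3 0 = - R k l 0 3 := fun k l => h.skew' k l 3 0
  have s21 : ∀ k l, R 2 1 k l = - R 1 2 k l := fun k l => h.skew 2 1 k l
  have t21 : ∀ k l, R k l 2 1 = - R k l 1 2 := fun k l => h.skew' k l 2 1
  have s31 : ∀ k l, R 3 1 k l = - R 1 3 k l := fun k l => h.skew 3 1 k l
  have t31 : ∀ k l, R k l 3 1 = - R k l 1 3 := fun k l => h.skew' k l 3 1
  have s32 : ∀ k l, R 3 2 k l = - R 2 3 k l := fun k l => h.skew 3 2 k l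
  have t32 : ∀ k l, R k l 3 2 = - R k l 2 3 := fun k l => h.skew' k l 3 2
  have d0 : ∀ k l, R 0 0 k l = 0 := fun k l => h.diag 0 k l
  have e0 : ∀ k l, R k l 0 0 = 0 := fun k l => h.diag' k l 0
  have d1 : ∀ k l, R 1 1 k l = 0 := fun k l => h.diag 1 k l
  have e1 : ∀ k l, R k l 1 1 = 0 := fun k l => h.diag' k l 1
  have d2 : ∀ k l, R 2 2 k l = 0 := fun k l => h.diag 2 k l
  have e2 : ∀ k l, R k l 2 2 = 0 := fun k l => h.diag' k l 2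
  have d3 : ∀ k l, R 3 3 k l = 0 := fun k l => h.diag 3 k l
  have e3 : ∀ k l, R k l 3 3 = 0 := fun k l => h.diag' k l 3
  have p0201 : R 0 2 0 1 = R 0 1 0 2 := h.pair 0 2 0 1
  have p0301 : R 0 3 0 1 = R 0 1 0 3 := h.pair 0 3 0 1
  have p0302 : R 0 3 0 2 = R 0 2 0 3 := h.pair 0 3 0 2
  have p1201 : R 1 2 0 1 = R 0 1 1 2 := h.pair 1 2 0 1
  have p1202 : R 1 2 0 2 = R 0 2 1 2 := h.pair 1 2 0 2
  have p1203 : R 1 2 0 3 = R 0 3 1 2 := h.pair 1 2 0 3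
  have p1301 : R 1 3 0 1 = R 0 1 1 3 := h.pair 1 3 0 1
  have p1302 : R 1 3 0 2 = R 0 2 1 3 := h.pair 1 3 0 2
  have p1303 : R 1 3 0 3 = R 0 3 1 3 := h.pair 1 3 0 3
  have p1312 : R 1 3 1 2 = R 1 2 1 3 := h.pair 1 3 1 2
  have p2301 : R 2 3 0 1 = R 0 1 2 3 := h.pair 2 3 0 1
  have p2302 : R 2 3 0 2 = R 0 2 2 3 := h.pair 2 3 0 2
  have p2303 : R 2 3 0 3 = R 0 3 2 3 := h.pair 2 3 0 3
  have p2312 : R 2 3 1 2 = R 1 2 2 3 := h.pair 2 3 1 2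
  have p2313 : R 2 3 1 3 = R 1 3 2 3 := h.pair 2 3 1 3
  simp only [ric, Fin.sum_univ_four, s10, t10, s20, t20, s30, t30, s21, t21, s31, t31, s32, t32, d0, e0, d1, e1, d2, e2, d3, e3, p0201, p0301, p0302, p1201, p1202, p1203, p1301, p1302, p1303, p1312, p2301, p2302, p2303, p2312, p2313]
  ring

theorem ric23 : ric R 2 3 = -R 0 2 0 3 - R 1 2 1 3 := by
  have s10 : ∀ k l, R 1 0 k l = - R 0 1 k l := fun k l => h.skew 1 0 k l
  have t10 : ∀ k l, R k l 1 0 = - R k l 0 1 := fun k l => h.skew' k l 1 0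
  have s20 : ∀ k l, R 2 0 k l = - R 0 2 k l := fun k l => h.skew 2 0 k l
  have t20 : ∀ k l, R k l 2 0 = - R k l 0 2 := fun k l => h.skew' k l 2 0
  have s30 : ∀ k l, R 3 0 k l = - R 0 3 k l := fun k l => h.skew 3 0 k l
  have t30 : ∀ k l, R k l 3 0 = - R k l 0 3 := fun k l => h.skew' k l 3 0
  have s21 : ∀ k l, R 2 1 k l = - R 1 2 k l := fun k l => h.skew 2 1 k l
  have t21 : ∀ k l, R k l 2 1 = - R k l 1 2 := fun k l => h.skew' k l 2 1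
  have s31 : ∀ k l, R 3 1 k l = - R 1 3 k l := fun k l => h.skew 3 1 k l
  have t31 : ∀ k l, R k l 3 1 = - R k l 1 3 := fun k l => h.skew' k l 3 1
  have s32 : ∀ k l, R 3 2 k l = - R 2 3 k l := fun k l => h.skew 3 2 k l
  have t32 : ∀ k l, R k l 3 2 = - R k l 2 3 := fun k l => h.skew' k l 3 2
  have d0 : ∀ k l, R 0 0 k l = 0 := fun k l => h.diag 0 k l
  have e0 : ∀ k l, R k l 0 0 = 0 := fun k l => h.diag' k l 0
  have d1 : ∀ k l, R 1 1 k l = 0 := fun k l => h.diag 1 k l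
  have e1 : ∀ k l, R k l 1 1 = 0 := fun k l => h.diag' k l 1
  have d2 : ∀ k l, R 2 2 k l = 0 := fun k l => h.diag 2 k l
  have e2 : ∀ k l, R k l 2 2 = 0 := fun k l => h.diag' k l 2
  have d3 : ∀ k l, R 3 3 k l = 0 := fun k l => h.diag 3 k l
  have e3 : ∀ k l, R k l 3 3 = 0 := fun k l => h.diag' k l 3
  have p0201 : R 0 2 0 1 = R 0 1 0 2 := h.pair 0 2 0 1
  have p0301 : R 0 3 0 1 = R 0 1 0 3 := h.pair 0 3 0 1
  have p0302 : R 0 3 0 2 = R 0 2 0 3 := h.pair 0 3 0 2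
  have p1201 : R 1 2 0 1 = R 0 1 1 2 := h.pair 1 2 0 1
  have p1202 : R 1 2 0 2 = R 0 2 1 2 := h.pair 1 2 0 2
  have p1203 : R 1 2 0 3 = R 0 3 1 2 := h.pair 1 2 0 3
  have p1301 : R 1 3 0 1 = R 0 1 1 3 := h.pair 1 3 0 1
  have p1302 : R 1 3 0 2 = R 0 2 1 3 := h.pair 1 3 0 2
  have p1303 : R 1 3 0 3 = R 0 3 1 3 := h.pair 1 3 0 3
  have p1312 : R 1 3 1 2 = R 1 2 1 3 := h.pair 1 3 1 2
  have p2301 : R 2 3 0 1 = R 0 1 2 3 := h.pair 2 3 0 1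
  have p2302 : R 2 3 0 2 = R 0 2 2 3 := h.pair 2 3 0 2
  have p2303 : R 2 3 0 3 = R 0 3 2 3 := h.pair 2 3 0 3
  have p2312 : R 2 3 1 2 = R 1 2 2 3 := h.pair 2 3 1 2
  have p2313 : R 2 3 1 3 = R 1 3 2 3 := h.pair 2 3 1 3
  simp only [ric, Fin.sum_univ_four, s10, t10, s20, t20, s30, t30, s21, t21, s31, t31, s32, t32, d0, e0, d1, e1, d2, e2, d3, e3, p0201, p0301, p0302, p1201, p1202, p1203, p1301, p1302, p1303, p1312, p2301, p2302, p2303, p2312, p2313]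
  ring

theorem ric30 : ric R 3 0 = R 0 1 1 3 + R 0 2 2 3 := by
  have s10 : ∀ k l, R 1 0 k l = - R 0 1 k l := fun k l => h.skew 1 0 k l
  have t10 : ∀ k l, R k l 1 0 = - R k l 0 1 := fun k l => h.skew' k l 1 0
  have s20 : ∀ k l, R 2 0 k l = - R 0 2 k l := fun k l => h.skew 2 0 k l
  have t20 : ∀ k l, R k l 2 0 = - R k l 0 2 := fun k l => h.skew' k l 2 0
  have s30 : ∀ k l, R 3 0 k l = - R 0 3 k l := fun k l => h.skew 3 0 k l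
  have t30 : ∀ k l, R k l 3 0 = - R k l 0 3 := fun k l => h.skew' k l 3 0
  have s21 : ∀ k l, R 2 1 k l = - R 1 2 k l := fun k l => h.skew 2 1 k l
  have t21 : ∀ k l, R k l 2 1 = - R k l 1 2 := fun k l => h.skew' k l 2 1
  have s31 : ∀ k l, R 3 1 k l = - R 1 3 k l := fun k l => h.skew 3 1 k l
  have t31 : ∀ k l, R k l 3 1 = - R k l 1 3 := fun k l => h.skew' k l 3 1
  have s32 : ∀ k l, R 3 2 k l = - R 2 3 k l := fun k l => h.skew 3 2 k l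
  have t32 : ∀ k l, R k l 3 2 = - R k l 2 3 := fun k l => h.skew' k l 3 2
  have d0 : ∀ k l, R 0 0 k l = 0 := fun k l => h.diag 0 k l
  have e0 : ∀ k l, R k l 0 0 = 0 := fun k l => h.diag' k l 0
  have d1 : ∀ k l, R 1 1 k l = 0 := fun k l => h.diag 1 k l
  have e1 : ∀ k l, R k l 1 1 = 0 := fun k l => h.diag' k l 1
  have d2 : ∀ k l, R 2 2 k l = 0 := fun k l => h.diag 2 k l
  have e2 : ∀ k l, R k l 2 2 = 0 := fun k l => h.diag' k l 2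
  have d3 : ∀ k l, R 3 3 k l = 0 := fun k l => h.diag 3 k l
  have e3 : ∀ k l, R k l 3 3 = 0 := fun k l => h.diag' k l 3
  have p0201 : R 0 2 0 1 = R 0 1 0 2 := h.pair 0 2 0 1
  have p0301 : R 0 3 0 1 = R 0 1 0 3 := h.pair 0 3 0 1
  have p0302 : R 0 3 0 2 = R 0 2 0 3 := h.pair 0 3 0 2
  have p1201 : R 1 2 0 1 = R 0 1 1 2 := h.pair 1 2 0 1
  have p1202 : R 1 2 0 2 = R 0 2 1 2 := h.pair 1 2 0 2
  have p1203 : R 1 2 0 3 = R 0 3 1 2 := h.pair 1 2 0 3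
  have p1301 : R 1 3 0 1 = R 0 1 1 3 := h.pair 1 3 0 1
  have p1302 : R 1 3 0 2 = R 0 2 1 3 := h.pair 1 3 0 2
  have p1303 : R 1 3 0 3 = R 0 3 1 3 := h.pair 1 3 0 3
  have p1312 : R 1 3 1 2 = R 1 2 1 3 := h.pair 1 3 1 2
  have p2301 : R 2 3 0 1 = R 0 1 2 3 := h.pair 2 3 0 1
  have p2302 : R 2 3 0 2 = R 0 2 2 3 := h.pair 2 3 0 2
  have p2303 : R 2 3 0 3 = R 0 3 2 3 := h.pair 2 3 0 3
  have p2312 : R 2 3 1 2 = R 1 2 2 3 := h.pair 2 3 1 2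
  have p2313 : R 2 3 1 3 = R 1 3 2 3 := h.pair 2 3 1 3
  simp only [ric, Fin.sum_univ_four, s10, t10, s20, t20, s30, t30, s21, t21, s31, t31, s32, t32, d0, e0, d1, e1, d2, e2, d3, e3, p0201, p0301, p0302, p1201, p1202, p1203, p1301, p1302, p1303, p1312, p2301, p2302, p2303, p2312, p2313]
  ring

theorem ric31 : ric R 3 1 = -R 0 1 0 3 + R 1 2 2 3 := by
  have s10 : ∀ k l, R 1 0 k l = - R 0 1 k l := fun k l => h.skew 1 0 k l
  have t10 : ∀ k l, R k l 1 0 = - R k l 0 1 := fun k l => h.skew' k l 1 0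
  have s20 : ∀ k l, R 2 0 k l = - R 0 2 k l := fun k l => h.skew 2 0 k l
  have t20 : ∀ k l, R k l 2 0 = - R k l 0 2 := fun k l => h.skew' k l 2 0
  have s30 : ∀ k l, R 3 0 k l = - R 0 3 k l := fun k l => h.skew 3 0 k l
  have t30 : ∀ k l, R k l 3 0 = - R k l 0 3 := fun k l => h.skew' k l 3 0
  have s21 : ∀ k l, R 2 1 k l = - R 1 2 k l := fun k l => h.skew 2 1 k l
  have t21 : ∀ k l, R k l 2 1 = - R k l 1 2 := fun k l => h.skew' k l 2 1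
  have s31 : ∀ k l, R 3 1 k l = - R 1 3 k l := fun k l => h.skew 3 1 k l
  have t31 : ∀ k l, R k l 3 1 = - R k l 1 3 := fun k l => h.skew' k l 3 1
  have s32 : ∀ k l, R 3 2 k l = - R 2 3 k l := fun k l => h.skew 3 2 k l
  have t32 : ∀ k l, R k l 3 2 = - R k l 2 3 := fun k l => h.skew' k l 3 2
  have d0 : ∀ k l, R 0 0 k l = 0 := fun k l => h.diag 0 k l
  have e0 : ∀ k l, R k l 0 0 = 0 := fun k l => h.diag' k l 0
  have d1 : ∀ k l, R 1 1 k l = 0 := fun k l => h.diag 1 k l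
  have e1 : ∀ k l, R k l 1 1 = 0 := fun k l => h.diag' k l 1
  have d2 : ∀ k l, R 2 2 k l = 0 := fun k l => h.diag 2 k l
  have e2 : ∀ k l, R k l 2 2 = 0 := fun k l => h.diag' k l 2
  have d3 : ∀ k l, R 3 3 k l = 0 := fun k l => h.diag 3 k l
  have e3 : ∀ k l, R k l 3 3 = 0 := fun k l => h.diag' k l 3
  have p0201 : R 0 2 0 1 = R 0 1 0 2 := h.pair 0 2 0 1
  have p0301 : R 0 3 0 1 = R 0 1 0 3 := h.pair 0 3 0 1
  have p0302 : R 0 3 0 2 = R 0 2 0 3 := h.pair 0 3 0 2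
  have p1201 : R 1 2 0 1 = R 0 1 1 2 := h.pair 1 2 0 1
  have p1202 : R 1 2 0 2 = R 0 2 1 2 := h.pair 1 2 0 2
  have p1203 : R 1 2 0 3 = R 0 3 1 2 := h.pair 1 2 0 3
  have p1301 : R 1 3 0 1 = R 0 1 1 3 := h.pair 1 3 0 1
  have p1302 : R 1 3 0 2 = R 0 2 1 3 := h.pair 1 3 0 2
  have p1303 : R 1 3 0 3 = R 0 3 1 3 := h.pair 1 3 0 3
  have p1312 : R 1 3 1 2 = R 1 2 1 3 := h.pair 1 3 1 2
  have p2301 : R 2 3 0 1 = R 0 1 2 3 := h.pair 2 3 0 1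
  have p2302 : R 2 3 0 2 = R 0 2 2 3 := h.pair 2 3 0 2
  have p2303 : R 2 3 0 3 = R 0 3 2 3 := h.pair 2 3 0 3
  have p2312 : R 2 3 1 2 = R 1 2 2 3 := h.pair 2 3 1 2
  have p2313 : R 2 3 1 3 = R 1 3 2 3 := h.pair 2 3 1 3
  simp only [ric, Fin.sum_univ_four, s10, t10, s20, t20, s30, t30, s21, t21, s31, t31, s32, t32, d0, e0, d1, e1, d2, e2, d3, e3, p0201, p0301, p0302, p1201, p1202, p1203, p1301, p1302, p1303, p1312, p2301, p2302, p2303, p2312, p2313]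
  ring

theorem ric32 : ric R 3 2 = -R 0 2 0 3 - R 1 2 1 3 := by
  have s10 : ∀ k l, R 1 0 k l = - R 0 1 k l := fun k l => h.skew 1 0 k l
  have t10 : ∀ k l, R k l 1 0 = - R k l 0 1 := fun k l => h.skew' k l 1 0
  have s20 : ∀ k l, R 2 0 k l = - R 0 2 k l := fun k l => h.skew 2 0 k l
  have t20 : ∀ k l, R k l 2 0 = - R k l 0 2 := fun k l => h.skew' k l 2 0
  have s30 : ∀ k l, R 3 0 k l = - R 0 3 k l := fun k l => h.skew 3 0 k l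
  have t30 : ∀ k l, R k l 3 0 = - R k l 0 3 := fun k l => h.skew' k l 3 0
  have s21 : ∀ k l, R 2 1 k l = - R 1 2 k l := fun k l => h.skew 2 1 k l
  have t21 : ∀ k l, R k l 2 1 = - R k l 1 2 := fun k l => h.skew' k l 2 1
  have s31 : ∀ k l, R 3 1 k l = - R 1 3 k l := fun k l => h.skew 3 1 k l
  have t31 : ∀ k l, R k l 3 1 = - R k l 1 3 := fun k l => h.skew' k l 3 1
  have s32 : ∀ k l, R 3 2 k l = - R 2 3 k l := fun k l => h.skew 3 2 k l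
  have t32 : ∀ k l, R k l 3 2 = - R k l 2 3 := fun k l => h.skew' k l 3 2
  have d0 : ∀ k l, R 0 0 k l = 0 := fun k l => h.diag 0 k l
  have e0 : ∀ k l, R k l 0 0 = 0 := fun k l => h.diag' k l 0
  have d1 : ∀ k l, R 1 1 k l = 0 := fun k l => h.diag 1 k l
  have e1 : ∀ k l, R k l 1 1 = 0 := fun k l => h.diag' k l 1
  have d2 : ∀ k l, R 2 2 k l = 0 := fun k l => h.diag 2 k l
  have e2 : ∀ k l, R k l 2 2 = 0 := fun k l => h.diag' k l 2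
  have d3 : ∀ k l, R 3 3 k l = 0 := fun k l => h.diag 3 k l
  have e3 : ∀ k l, R k l 3 3 = 0 := fun k l => h.diag' k l 3
  have p0201 : R 0 2 0 1 = R 0 1 0 2 := h.pair 0 2 0 1
  have p0301 : R 0 3 0 1 = R 0 1 0 3 := h.pair 0 3 0 1
  have p0302 : R 0 3 0 2 = R 0 2 0 3 := h.pair 0 3 0 2
  have p1201 : R 1 2 0 1 = R 0 1 1 2 := h.pair 1 2 0 1
  have p1202 : R 1 2 0 2 = R 0 2 1 2 := h.pair 1 2 0 2
  have p1203 : R 1 2 0 3 = R 0 3 1 2 := h.pair 1 2 0 3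
  have p1301 : R 1 3 0 1 = R 0 1 1 3 := h.pair 1 3 0 1
  have p1302 : R 1 3 0 2 = R 0 2 1 3 := h.pair 1 3 0 2
  have p1303 : R 1 3 0 3 = R 0 3 1 3 := h.pair 1 3 0 3
  have p1312 : R 1 3 1 2 = R 1 2 1 3 := h.pair 1 3 1 2
  have p2301 : R 2 3 0 1 = R 0 1 2 3 := h.pair 2 3 0 1
  have p2302 : R 2 3 0 2 = R 0 2 2 3 := h.pair 2 3 0 2
  have p2303 : R 2 3 0 3 = R 0 3 2 3 := h.pair 2 3 0 3
  have p2312 : R 2 3 1 2 = R 1 2 2 3 := h.pair 2 3 1 2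
  have p2313 : R 2 3 1 3 = R 1 3 2 3 := h.pair 2 3 1 3
  simp only [ric, Fin.sum_univ_four, s10, t10, s20, t20, s30, t30, s21, t21, s31, t31, s32, t32, d0, e0, d1, e1, d2, e2, d3, e3, p0201, p0301, p0302, p1201, p1202, p1203, p1301, p1302, p1303, p1312, p2301, p2302, p2303, p2312, p2313]
  ring

theorem ric33 : ric R 3 3 = -R 0 3 0 3 - R 1 3 1 3 - R 2 3 2 3 := by
  have s10 : ∀ k l, R 1 0 k l = - R 0 1 k l := fun k l => h.skew 1 0 k l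
  have t10 : ∀ k l, R k l 1 0 = - R k l 0 1 := fun k l => h.skew' k l 1 0
  have s20 : ∀ k l, R 2 0 k l = - R 0 2 k l := fun k l => h.skew 2 0 k l
  have t20 : ∀ k l, R k l 2 0 = - R k l 0 2 := fun k l => h.skew' k l 2 0
  have s30 : ∀ k l, R 3 0 k l = - R 0 3 k l := fun k l => h.skew 3 0 k l
  have t30 : ∀ k l, R k l 3 0 = - R k l 0 3 := fun k l => h.skew' k l 3 0
  have s21 : ∀ k l, R 2 1 k l = - R 1 2 k l := fun k l => h.skew 2 1 k l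
  have t21 : ∀ k l, R k l 2 1 = - R k l 1 2 := fun k l => h.skew' k l 2 1
  have s31 : ∀ k l, R 3 1 k l = - R 1 3 k l := fun k l => h.skew 3 1 k l
  have t31 : ∀ k l, R k l 3 1 = - R k l 1 3 := fun k l => h.skew' k l 3 1
  have s32 : ∀ k l, R 3 2 k l = - R 2 3 k l := fun k l => h.skew 3 2 k l
  have t32 : ∀ k l, R k l 3 2 = - R k l 2 3 := fun k l => h.skew' k l 3 2
  have d0 : ∀ k l, R 0 0 k l = 0 := fun k l => h.diag 0 k l
  have e0 : ∀ k l, R k l 0 0 = 0 := fun k l => h.diag' k l 0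
  have d1 : ∀ k l, R 1 1 k l = 0 := fun k l => h.diag 1 k l
  have e1 : ∀ k l, R k l 1 1 = 0 := fun k l => h.diag' k l 1
  have d2 : ∀ k l, R 2 2 k l = 0 := fun k l => h.diag 2 k l
  have e2 : ∀ k l, R k l 2 2 = 0 := fun k l => h.diag' k l 2
  have d3 : ∀ k l, R 3 3 k l = 0 := fun k l => h.diag 3 k l
  have e3 : ∀ k l, R k l 3 3 = 0 := fun k l => h.diag' k l 3
  have p0201 : R 0 2 0 1 = R 0 1 0 2 := h.pair 0 2 0 1
  have p0301 : R 0 3 0 1 = R 0 1 0 3 := h.pair 0 3 0 1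
  have p0302 : R 0 3 0 2 = R 0 2 0 3 := h.pair 0 3 0 2
  have p1201 : R 1 2 0 1 = R 0 1 1 2 := h.pair 1 2 0 1
  have p1202 : R 1 2 0 2 = R 0 2 1 2 := h.pair 1 2 0 2
  have p1203 : R 1 2 0 3 = R 0 3 1 2 := h.pair 1 2 0 3
  have p1301 : R 1 3 0 1 = R 0 1 1 3 := h.pair 1 3 0 1
  have p1302 : R 1 3 0 2 = R 0 2 1 3 := h.pair 1 3 0 2
  have p1303 : R 1 3 0 3 = R 0 3 1 3 := h.pair 1 3 0 3
  have p1312 : R 1 3 1 2 = R 1 2 1 3 := h.pair 1 3 1 2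
  have p2301 : R 2 3 0 1 = R 0 1 2 3 := h.pair 2 3 0 1
  have p2302 : R 2 3 0 2 = R 0 2 2 3 := h.pair 2 3 0 2
  have p2303 : R 2 3 0 3 = R 0 3 2 3 := h.pair 2 3 0 3
  have p2312 : R 2 3 1 2 = R 1 2 2 3 := h.pair 2 3 1 2
  have p2313 : R 2 3 1 3 = R 1 3 2 3 := h.pair 2 3 1 3
  simp only [ric, Fin.sum_univ_four, s10, t10, s20, t20, s30, t30, s21, t21, s31, t31, s32, t32, d0, e0, d1, e1, d2, e2, d3, e3, p0201, p0301, p0302, p1201, p1202, p1203, p1301, p1302, p1303, p1312, p2301, p2302, p2303, p2312, p2313]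
  ring

/-- The signature integrand up to a factor. -/
theorem pont : ∑ a, ∑ b, (R 0 1 a b * R 2 3 a b - R 0 2 a b * R 1 3 a b + R 0 3 a b * R 1 2 a b) =
    2 * (((R 0 1 0 1 * R 0 1 2 3)) + ((R 0 1 0 2 * R 0 2 2 3)) + ((R 0 1 0 3 * R 0 3 2 3)) + ((R 0 1 1 2 * R 1 2 2 3)) + ((R 0 1 1 3 * R 1 3 2 3)) + ((R 0 1 2 3 * R 2 3 2 3)) + (-(R 0 1 0 2 * R 0 1 1 3)) + (-(R 0 2 0 2 * R 0 2 1 3)) + (-(R 0 2 0 3 * R 0 3 1 3)) + (-(R 0 2 1 2 * R 1 2 1 3)) + (-(R 0 2 1 3 * R 1 3 1 3)) + (-(R 0 2 2 3 * R 1 3 2 3)) + ((R 0 1 0 3 * R 0 1 1 2)) + ((R 0 2 0 3 * R 0 2 1 2)) + ((R 0 3 0 3 * R 0 3 1 2)) + ((R 0 3 1 2 * R 1 2 1 2)) + ((R 0 3 1 3 * R 1 2 1 3)) + ((R 0 3 2 3 * R 1 2 2 3))) := by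
  have s10 : ∀ k l, R 1 0 k l = - R 0 1 k l := fun k l => h.skew 1 0 k l
  have t10 : ∀ k l, R k l 1 0 = - R k l 0 1 := fun k l => h.skew' k l 1 0
  have s20 : ∀ k l, R 2 0 k l = - R 0 2 k l := fun k l => h.skew 2 0 k l
  have t20 : ∀ k l, R k l 2 0 = - R k l 0 2 := fun k l => h.skew' k l 2 0
  have s30 : ∀ k l, R 3 0 k l = - R 0 3 k l := fun k l => h.skew 3 0 k l
  have t30 : ∀ k l, R k l 3 0 = - R k l 0 3 := fun k l => h.skew' k l 3 0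
  have s21 : ∀ k l, R 2 1 k l = - R 1 2 k l := fun k l => h.skew 2 1 k l
  have t21 : ∀ k l, R k l 2 1 = - R k l 1 2 := fun k l => h.skew' k l 2 1
  have s31 : ∀ k l, R 3 1 k l = - R 1 3 k l := fun k l => h.skew 3 1 k l
  have t31 : ∀ k l, R k l 3 1 = - R k l 1 3 := fun k l => h.skew' k l 3 1
  have s32 : ∀ k l, R 3 2 k l = - R 2 3 k l := fun k l => h.skew 3 2 k l
  have t32 : ∀ k l, R k l 3 2 = - R k l 2 3 := fun k l => h.skew' k l 3 2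
  have d0 : ∀ k l, R 0 0 k l = 0 := fun k l => h.diag 0 k l
  have e0 : ∀ k l, R k l 0 0 = 0 := fun k l => h.diag' k l 0
  have d1 : ∀ k l, R 1 1 k l = 0 := fun k l => h.diag 1 k l
  have e1 : ∀ k l, R k l 1 1 = 0 := fun k l => h.diag' k l 1
  have d2 : ∀ k l, R 2 2 k l = 0 := fun k l => h.diag 2 k l
  have e2 : ∀ k l, R k l 2 2 = 0 := fun k l => h.diag' k l 2
  have d3 : ∀ k l, R 3 3 k l = 0 := fun k l => h.diag 3 k l
  have e3 : ∀ k l, R k l 3 3 = 0 := fun k l => h.diag' k l 3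
  have p0201 : R 0 2 0 1 = R 0 1 0 2 := h.pair 0 2 0 1
  have p0301 : R 0 3 0 1 = R 0 1 0 3 := h.pair 0 3 0 1
  have p0302 : R 0 3 0 2 = R 0 2 0 3 := h.pair 0 3 0 2
  have p1201 : R 1 2 0 1 = R 0 1 1 2 := h.pair 1 2 0 1
  have p1202 : R 1 2 0 2 = R 0 2 1 2 := h.pair 1 2 0 2
  have p1203 : R 1 2 0 3 = R 0 3 1 2 := h.pair 1 2 0 3
  have p1301 : R 1 3 0 1 = R 0 1 1 3 := h.pair 1 3 0 1
  have p1302 : R 1 3 0 2 = R 0 2 1 3 := h.pair 1 3 0 2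
  have p1303 : R 1 3 0 3 = R 0 3 1 3 := h.pair 1 3 0 3
  have p1312 : R 1 3 1 2 = R 1 2 1 3 := h.pair 1 3 1 2
  have p2301 : R 2 3 0 1 = R 0 1 2 3 := h.pair 2 3 0 1
  have p2302 : R 2 3 0 2 = R 0 2 2 3 := h.pair 2 3 0 2
  have p2303 : R 2 3 0 3 = R 0 3 2 3 := h.pair 2 3 0 3
  have p2312 : R 2 3 1 2 = R 1 2 2 3 := h.pair 2 3 1 2
  have p2313 : R 2 3 1 3 = R 1 3 2 3 := h.pair 2 3 1 3
  simp only [Fin.sum_univ_four, s10, t10, s20, t20, s30, t30, s21, t21, s31, t31, s32, t32, d0, e0, d1, e1, d2, e2, d3, e3, p0201, p0301, p0302, p1201, p1202, p1203, p1301, p1302, p1303, p1312, p2301, p2302, p2303, p2312, p2313]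
  ring

end SkewPair

end Pool.Agent.H84.HT
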