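import Pool.Agent.H84.HT.Weyl

/-!
# The inequality for the curvature of a Riemannian submersion with four-dimensional base
-/

namespace Pool.Agent.H84.HT

open Finset

namespace SkewPair

variable {R : Fin 4 → Fin 4 → Fin 4 → Fin 4 → ℝ} (h : SkewPair R)
include h

theorem gram_ineq : 1 / 2 * ricSq R ≤ 1 / 4 * normSq R + 1 / 12 * scal R ^ 2 := by
  have key : 1 / 4 * normSq R + 1 / 12 * scal R ^ 2 - 1 / 2 * ricSq R =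
      1 / 2 * ((R 0 1 0 2 - R 0 1 1 3 + R 0 2 2 3 - R 1 3 2 3) ^ 2 + (R 0 1 0 3 + R 0 1 1 2 + R 0 3 2 3 + R 1 2 2 3) ^ 2 + (R 0 2 0 3 + R 0 2 1 2 - R 0 3 1 3 - R 1 2 1 3) ^ 2 + (R 0 1 0 2 + R 0 1 1 3 - R 0 2 2 3 - R 1 3 2 3) ^ 2 + (R 0 1 0 3 - R 0 1 1 2 - R 0 3 2 3 + R 1 2 2 3) ^ 2 + (R 0 2 0 3 - R 0 2 1 2 + R 0 3 1 3 - R 1 2 1 3) ^ 2)
      + 1 / 24 * (((R 0 2 0 2 - 2 * R 0 2 1 3 + R 1 3 1 3) - (R 0 1 0 1 + 2 * R 0 1 2 3 + R 2 3 2 3)) ^ 2 + ((R 0 3 0 3 + 2 * R 0 3 1 2 + R 1 2 1 2) - (R 0 1 0 1 + 2 * R 0 1 2 3 + R 2 3 2 3)) ^ 2 + ((R 0 3 0 3 + 2 * R 0 3 1 2 + R 1 2 1 2) - (R 0 2 0 2 - 2 * R 0 2 1 3 + R 1 3 1 3)) ^ 2 + ((R 0 1 0 1 - 2 * R 0 1 2 3 + R 2 3 2 3) - (R 0 1 0 1 + 2 * R 0 1 2 3 + R 2 3 2 3)) ^ 2 + ((R 0 1 0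 1 - 2 * R 0 1 2 3 + R 2 3 2 3) - (R 0 2 0 2 - 2 * R 0 2 1 3 + R 1 3 1 3)) ^ 2 + ((R 0 1 0 1 - 2 * R 0 1 2 3 + R 2 3 2 3) - (R 0 3 0 3 + 2 * R 0 3 1 2 + R 1 2 1 2)) ^ 2 + ((R 0 2 0 2 + 2 * R 0 2 1 3 + R 1 3 1 3) - (R 0 1 0 1 + 2 * R 0 1 2 3 + R 2 3 2 3)) ^ 2 + ((R 0 2 0 2 + 2 * R 0 2 1 3 + R 1 3 1 3) - (R 0 2 0 2 - 2 * R 0 2 1 3 + R 1 3 1 3)) ^ 2 + ((R 0 2 0 2 + 2 * R 0 2 1 3 + R 1 3 1 3) - (R 0 3 0 3 + 2 * R 0 3 1 2 + R 1 2 1 2)) ^ 2 + ((R 0 2 0 2 + 2 * R 0 2 1 3 + R 1 3 1 3) - (R 0 1 0 1 - 2 * R 0 1 2 3 + R 2 3 2 3)) ^ 2 + ((R 0 3 0 3 - 2 * R 0 3 1 2 + R 1 2 1 2) - (R 0 1 0 1 + 2 * R 0 1 2 3 + R 2 3 2 3)) ^ 2 + ((R 0 3 0 3 - 2 * R 0 3 1 2 + R 1 2 1 2) - (R 0 2 0 2 - 2 * R 0 2 1 3 + R 1 3 1 3)) ^ 2 + ((R 0 3 0 3 - 2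 * R 0 3 1 2 + R 1 2 1 2) - (R 0 3 0 3 + 2 * R 0 3 1 2 + R 1 2 1 2)) ^ 2 + ((R 0 3 0 3 - 2 * R 0 3 1 2 + R 1 2 1 2) - (R 0 1 0 1 - 2 * R 0 1 2 3 + R 2 3 2 3)) ^ 2 + ((R 0 3 0 3 - 2 * R 0 3 1 2 + R 1 2 1 2) - (R 0 2 0 2 + 2 * R 0 2 1 3 + R 1 3 1 3)) ^ 2) := by
    rw [normSq, h.sum_sq, ricSq, scal]
    simp only [Fin.sum_univ_four, h.ric00, h.ric01, h.ric02, h.ric03, h.ric10, h.ric11, h.ric12, h.ric13, h.ric20, h.ric21, h.ric22, h.ric23, h.ric30, h.ric31, h.ric32, h.ric33]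
    ring
  have : 0 ≤ 1 / 4 * normSq R + 1 / 12 * scal R ^ 2 - 1 / 2 * ricSq R := by
    rw [key]; positivity
  linarith

end SkewPair

end Pool.Agent.H84.HT
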