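import Pool.Agent.H84.HT.Gram

/-!
# Einstein Riemannian submersions with totally geodesic fibres over a four-dimensional base

`SubmersionPoint k lam` collects the values at a point `p` of the total space `M` (dimension `4 + k`),
in an orthonormal frame adapted to the submersion `π : M → B` (first four vectors horizontal, and basic
along the fibre, the others vertical), of the curvature tensors of `M`, of the base `B` and of the fibre,
and of the vertical components `F i j` of the brackets of the basic fields.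
-/

namespace Pool.Agent.H84.HT

open Finset Sum

/-- Curvature data, at a point, of a Riemannian submersion `M → B` with totally geodesic fibres,
`dim B = 4`, `dim M = 4 + k`, whose total space is Einstein, `Ric_M = lam`. -/
structure SubmersionPoint (k : ℕ) (lam : ℝ) where
  /-- curvature tensor of the total space -/
  RM : Fin 4 ⊕ Fin k → Fin 4 ⊕ Fin k → Fin 4 ⊕ Fin k → Fin 4 ⊕ Fin k → ℝ
  /-- curvature tensor of the base -/
  RB : Fin 4 → Fin 4 → Fin 4 → Fin 4 → ℝ
  /-- curvature tensor of the fibre -/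
  RF : Fin k → Fin k → Fin k → Fin k → ℝ
  /-- vertical part of the bracket of the basic fields `X_i`, `X_j` -/
  F : Fin 4 → Fin 4 → Fin k → ℝ
  /-- covariant derivative along the fibre of the vertical fields `F i j` -/
  DF : Fin 4 → Fin 4 → Fin k → Fin k → ℝ
  /-- rough Laplacian along the fibre of the vertical fields `F i j` -/
  LF : Fin 4 → Fin 4 → Fin k → ℝ
  RM_skew : ∀ p q r s, RM p q r s = - RM q p r s
  RM_pair : ∀ p q r s, RM p q r s = RM r s p q
  RM_bianchi : ∀ p q r s, RM p q r s + RM q r p s + RM r p q s = 0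
  /-- the total space is Einstein -/
  einstein : ∀ p q, ric RM p q = if p = q then lam else 0
  F_skew : ∀ i j a, F i j a = - F j i a
  /-- O'Neill's formula for horizontal vectors -/
  horizontal : ∀ i j l m, RB i j l m = RM (inl i) (inl j) (inl l) (inl m)
    - 1 / 4 * ∑ a, (2 * F i j a * F l m a - F j l a * F i m a - F l i a * F j m a)
  /-- O'Neill's formula for mixed vectors -/
  mixed_h : ∀ i j a, RM (inl i) (inr a) (inr a) (inl j) = 1 / 4 * ∑ l, F i l a * F j l a
  /-- O'Neill's formula for mixed vectors -/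
  mixed_v : ∀ i a b, RM (inr a) (inl i) (inl i) (inr b) = 1 / 4 * ∑ l, F i l a * F i l b
  /-- Gauss equation of the totally geodesic fibres -/
  gauss : ∀ a b c d, RM (inr a) (inr b) (inr c) (inr d) = RF a b c d
  /-- the fields `F i j` are Killing fields of the fibres -/
  killing : ∀ i j a, LF i j a = - ∑ b, ric RF a b * F i j b
  /-- `∑ |F i j|²` is constant along the fibres, so that its Laplacian along the fibre vanishes -/
  basic : ∑ i, ∑ j, ∑ a, (LF i j a * F i j a + ∑ b, DF i j a b ^ 2) = 0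

namespace SubmersionPoint

variable {k : ℕ} {lam : ℝ} (D : SubmersionPoint k lam)

/-- Gram tensor of the `F i j`. -/
def G (i j l m : Fin 4) : ℝ := ∑ a, D.F i j a * D.F l m a

/-- `∑ |F i j|²`. -/
def T : ℝ := ∑ i, ∑ j, ∑ a, D.F i j a ^ 2

theorem G_skewPair : SkewPair D.G where
  skew i j l m := by
    simp only [G, D.F_skew i j, neg_mul, sum_neg_distrib]
  pair i j l m := by
    simp only [G]
    exact sum_congr rfl fun a _ => mul_comm _ _

theorem RB_eq (i j l m : Fin 4) : D.RB i j l m = D.RM (inl i) (inl j) (inl l) (inl m)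
    - 1 / 4 * (2 * D.G i j l m - D.G j l i m - D.G l i j m) := by
  rw [D.horizontal]
  simp only [G, mul_sum, ← sum_sub_distrib]
  congr 1
  exact sum_congr rfl fun a _ => by ring

theorem RB_skewPair : SkewPair D.RB where
  skew i j l m := by
    have h := D.G_skewPair
    rw [D.RB_eq, D.RB_eq, D.RM_skew, h.skew i j l m, h.skew j l i m, h.skew l i j m]
    ring
  pair i j l m := by
    have h := D.G_skewPair
    rw [D.RB_eq, D.RB_eq, D.RM_pair, h.pair i j l m, h.skew m i l j, h.skew' i m l j,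
      h.pair i m j l, h.skew' i l m j, h.skew i l]
    have e1 : D.G j l i m = D.G i m j l := h.pair _ _ _ _
    have e2 : D.G l m i j = D.G i j l m := h.pair _ _ _ _
    linarith

theorem RB_bianchi (i j l m : Fin 4) : D.RB i j l m + D.RB j l i m + D.RB l i j m = 0 := by
  rw [D.RB_eq, D.RB_eq, D.RB_eq]
  have := D.RM_bianchi (inl i) (inl j) (inl l) (inl m)
  linarith

theorem ric_RB (i j : Fin 4) :
    ric D.RB i j = (if i = j then lam else 0) - 1 / 2 * ric D.G i j := by
  have h := D.G_skewPair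
  have hE := D.einstein (inl i) (inl j)
  simp only [ric, Fintype.sum_sum_type, D.mixed_h] at hE
  have e1 : ∑ a, 1 / 4 * ∑ l, D.F i l a * D.F j l a = - (1 / 4 * ric D.G i j) := by
    rw [← mul_sum, sum_comm, ric, ← mul_neg, ← sum_neg_distrib]
    congr 1
    refine sum_congr rfl fun l _ => ?_
    rw [h.skew', neg_neg, G]
  rw [e1] at hE
  have e2 : ric D.RB i j = ∑ l, D.RM (inl i) (inl l) (inl l) (inl j) - 3 / 4 * ric D.G i j := by
    simp only [ric]
    rw [mul_sum, ← sum_sub_distrib]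
    refine sum_congr rfl fun l _ => ?_
    rw [D.RB_eq, h.diag, h.skew l i l j]
    ring
  have e3 : (if (inl i : Fin 4 ⊕ Fin k) = inl j then lam else 0) = if i = j then lam else 0 := by
    simp [Sum.inl.injEq]
  rw [e3] at hE
  rw [e2]
  linarith

theorem T_eq : D.T = - scal D.G := by
  have h := D.G_skewPair
  simp only [T, scal, ric, ← sum_neg_distrib]
  refine sum_congr rfl fun i _ => sum_congr rfl fun j _ => ?_
  rw [h.skew', neg_neg, G]
  exact sum_congr rfl fun a _ => by ring

theorem T_nonneg : 0 ≤ D.T := by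
  unfold T; positivity

theorem scal_RB : scal D.RB = 4 * lam + 1 / 2 * D.T := by
  rw [T_eq]
  simp only [scal, D.ric_RB]
  simp only [if_true, sum_sub_distrib, sum_const, card_univ, Fintype.card_fin, ← mul_sum]
  ring

theorem ricSq_RB : ricSq D.RB = 4 * lam ^ 2 + lam * D.T + 1 / 4 * ricSq D.G := by
  rw [T_eq]
  simp only [ricSq, scal, D.ric_RB, Fin.sum_univ_four]
  simp
  ring

/-- Gram matrix over the vertical indices. -/
def H (a b : Fin k) : ℝ := ∑ i, ∑ j, D.F i j a * D.F i j b

theorem ric_RF (a b : Fin k) :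
    ric D.RF a b = (if a = b then lam else 0) - 1 / 4 * D.H a b := by
  have hE := D.einstein (inr a) (inr b)
  simp only [ric, Fintype.sum_sum_type, D.mixed_v, D.gauss] at hE
  have e3 : (if (inr a : Fin 4 ⊕ Fin k) = inr b then lam else 0) = if a = b then lam else 0 := by
    simp [Sum.inr.injEq]
  rw [e3, ← mul_sum] at hE
  simp only [ric, H]
  linarith

theorem gram_swap {P A : Type*} [Fintype P] [Fintype A] (f : P → A → ℝ) :
    ∑ a, ∑ b, (∑ p, f p a * f p b) ^ 2 = ∑ p, ∑ q, (∑ a, f p a * f q a) ^ 2 := by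
  have swap : ∀ t : A → A → P → P → ℝ,
      ∑ a, ∑ b, ∑ p, ∑ q, t a b p q = ∑ p, ∑ q, ∑ a, ∑ b, t a b p q := by
    intro t
    calc ∑ a, ∑ b, ∑ p, ∑ q, t a b p q = ∑ a, ∑ p, ∑ b, ∑ q, t a b p q :=
          sum_congr rfl fun a _ => sum_comm
      _ = ∑ p, ∑ a, ∑ b, ∑ q, t a b p q := sum_comm
      _ = ∑ p, ∑ a, ∑ q, ∑ b, t a b p q :=
          sum_congr rfl fun p _ => sum_congr rfl fun a _ => sum_comm
      _ = ∑ p, ∑ q, ∑ a, ∑ b, t a b p q := sum_congr rfl fun p _ => sum_comm
  simp only [sq, sum_mul_sum]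
  rw [swap]
  exact sum_congr rfl fun p _ => sum_congr rfl fun q _ => sum_congr rfl fun a _ =>
    sum_congr rfl fun b _ => by ring

theorem sum_H_sq : ∑ a, ∑ b, D.H a b ^ 2 = normSq D.G := by
  have := gram_swap (fun (p : Fin 4 × Fin 4) (a : Fin k) => D.F p.1 p.2 a)
  simp only [Fintype.sum_prod_type] at this
  exact this

theorem sum_H_diag : ∑ a, D.H a a = D.T := by
  simp only [H, T]
  rw [sum_comm]
  refine sum_congr rfl fun i _ => ?_
  rw [sum_comm]
  exact sum_congr rfl fun j _ => sum_congr rfl fun a _ => by ring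

theorem lam_T : 1 / 4 * normSq D.G ≤ lam * D.T := by
  have hb := D.basic
  have e1 : ∑ i, ∑ j, ∑ a, D.LF i j a * D.F i j a = - ∑ a, ∑ b, ric D.RF a b * D.H a b := by
    calc ∑ i, ∑ j, ∑ a, D.LF i j a * D.F i j a
        = - ∑ i, ∑ j, ∑ a, ∑ b, ric D.RF a b * (D.F i j a * D.F i j b) := by
          simp only [← sum_neg_distrib]
          refine sum_congr rfl fun i _ => sum_congr rfl fun j _ => sum_congr rfl fun a _ => ?_
          rw [D.killing, neg_mul, sum_mul, ← sum_neg_distrib]
          exact sum_congr rfl fun b _ => by ring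
      _ = - ∑ a, ∑ b, ∑ i, ∑ j, ric D.RF a b * (D.F i j a * D.F i j b) := by
          congr 1
          calc ∑ i, ∑ j, ∑ a, ∑ b, ric D.RF a b * (D.F i j a * D.F i j b)
              = ∑ i, ∑ a, ∑ j, ∑ b, ric D.RF a b * (D.F i j a * D.F i j b) :=
                sum_congr rfl fun i _ => sum_comm
            _ = ∑ a, ∑ i, ∑ j, ∑ b, ric D.RF a b * (D.F i j a * D.F i j b) := sum_comm
            _ = ∑ a, ∑ i, ∑ b, ∑ j, ric D.RF a b * (D.F i j a * D.F i j b) :=
                sum_congr rfl fun a _ => sum_congr rfl fun i _ => sum_comm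
            _ = ∑ a, ∑ b, ∑ i, ∑ j, ric D.RF a b * (D.F i j a * D.F i j b) :=
                sum_congr rfl fun a _ => sum_comm
      _ = - ∑ a, ∑ b, ric D.RF a b * D.H a b := by
          simp only [H, mul_sum]
  have e2 : ∑ a, ∑ b, ric D.RF a b * D.H a b = lam * D.T - 1 / 4 * normSq D.G := by
    rw [← D.sum_H_sq, ← D.sum_H_diag, mul_sum, mul_sum, ← sum_sub_distrib]
    refine sum_congr rfl fun a _ => ?_
    simp only [D.ric_RF, sub_mul, sum_sub_distrib, ite_mul, zero_mul, sum_ite_eq, mem_univ, if_true]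
    rw [mul_sum]
    congr 1
    exact sum_congr rfl fun b _ => by ring
  have e3 : 0 ≤ ∑ i, ∑ j, ∑ a, ∑ b, D.DF i j a b ^ 2 := by positivity
  have e4 : ∑ i, ∑ j, ∑ a, (D.LF i j a * D.F i j a + ∑ b, D.DF i j a b ^ 2) =
      ∑ i, ∑ j, ∑ a, D.LF i j a * D.F i j a + ∑ i, ∑ j, ∑ a, ∑ b, D.DF i j a b ^ 2 := by
    simp only [sum_add_distrib]
  rw [e4, e1, e2] at hb
  linarith

theorem lam_T_nonneg : 0 ≤ lam * D.T := by
  have h1 := D.lam_T
  have h2 : 0 ≤ normSq D.G := by unfold normSq; positivity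
  linarith

theorem ineq : 1 / 12 * (D.T - 2 * lam) ^ 2 + 7 / 3 * lam ^ 2 ≤
    2 / 3 * scal D.RB ^ 2 - 2 * ricSq D.RB := by
  have h1 := D.lam_T
  have h2 := D.G_skewPair.gram_ineq
  rw [D.scal_RB, D.ricSq_RB]
  have h3 := D.T_eq
  have h4 : scal D.G ^ 2 = D.T ^ 2 := by rw [h3]; ring
  rw [h4] at h2
  nlinarith

theorem ineq' : 1 / 3 * ((scal D.RB - 5 * lam) ^ 2 + 7 * lam ^ 2) ≤
    normSq D.RB - 4 * ricSq D.RB + scal D.RB ^ 2 - |4 * pontr D.RB| := by
  have h1 := D.ineq
  have h2 := D.RB_skewPair.weyl_ineq (D.RB_bianchi 0 1 2 3)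
  have h3 := D.scal_RB
  have h4 : D.T = 2 * (scal D.RB - 4 * lam) := by linarith
  rw [h4] at h1
  nlinarith

theorem F_eq_zero_of_T (h : D.T = 0) (i j : Fin 4) (a : Fin k) : D.F i j a = 0 := by
  unfold T at h
  have h1 : ∀ i ∈ (univ : Finset (Fin 4)), 0 ≤ ∑ j, ∑ a, D.F i j a ^ 2 := fun i _ => by positivity
  have h2 := (sum_eq_zero_iff_of_nonneg h1).1 h i (mem_univ _)
  have h3 : ∀ j ∈ (univ : Finset (Fin 4)), 0 ≤ ∑ a, D.F i j a ^ 2 := fun i _ => by positivity
  have h4 := (sum_eq_zero_iff_of_nonneg h3).1 h2 j (mem_univ _)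
  have h5 : ∀ a ∈ (univ : Finset (Fin k)), 0 ≤ D.F i j a ^ 2 := fun i _ => by positivity
  have h6 := (sum_eq_zero_iff_of_nonneg h5).1 h4 a (mem_univ _)
  exact pow_eq_zero_iff (two_ne_zero) |>.1 h6

theorem T_zero (hl : lam ≤ 0) : D.T = 0 := by
  rcases hl.lt_or_eq with h | h
  · have h1 := D.lam_T_nonneg
    have h2 := D.T_nonneg
    nlinarith
  · have h1 := D.lam_T
    rw [mul_eq_zero_of_left h, ← D.sum_H_sq] at h1
    have h0 : ∀ a, D.H a a = 0 := by
      intro a
      have h2 : ∑ b, D.H a b ^ 2 ≤ ∑ a, ∑ b, D.H a b ^ 2 :=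
        single_le_sum (f := fun a => ∑ b, D.H a b ^ 2) (fun i _ => by positivity) (mem_univ a)
      have h3 : D.H a a ^ 2 ≤ ∑ b, D.H a b ^ 2 :=
        single_le_sum (f := fun b => D.H a b ^ 2) (fun i _ => by positivity) (mem_univ a)
      have h4 : D.H a a ^ 2 ≤ 0 := by linarith
      exact pow_eq_zero_iff (two_ne_zero) |>.1 (le_antisymm h4 (sq_nonneg _))
    rw [← D.sum_H_diag]
    simp [h0]

theorem flat_of_nonpos (hl : lam ≤ 0) :
    (∀ i j a, D.F i j a = 0) ∧ ∀ i j, ric D.RB i j = if i = j then lam else 0 := by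
  have hT := D.T_zero hl
  have hF := D.F_eq_zero_of_T hT
  refine ⟨hF, fun i j => ?_⟩
  rw [D.ric_RB]
  simp [ric, G, hF]

end SubmersionPoint

end Pool.Agent.H84.HT
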