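import Pool.Agent.H84.HT.Alg

/-!
# The norm of the self-dual and anti-self-dual Weyl tensor in terms of the curvature integrands
-/

namespace Pool.Agent.H84.HT

open Finset

/-- The integrand `∑ (R 0 1 a b R 2 3 a b - R 0 2 a b R 1 3 a b + R 0 3 a b R 1 2 a b)`, a multiple of
the signature integrand. -/
def pontr (R : Fin 4 → Fin 4 → Fin 4 → Fin 4 → ℝ) : ℝ :=
  ∑ a, ∑ b, (R 0 1 a b * R 2 3 a b - R 0 2 a b * R 1 3 a b + R 0 3 a b * R 1 2 a b)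

/-- Full square norm. -/
def normSq (R : Fin 4 → Fin 4 → Fin 4 → Fin 4 → ℝ) : ℝ := ∑ i, ∑ j, ∑ k, ∑ l, R i j k l ^ 2

/-- Square norm of the Ricci contraction. -/
def ricSq (R : Fin 4 → Fin 4 → Fin 4 → Fin 4 → ℝ) : ℝ := ∑ i, ∑ j, ric R i j ^ 2

/-- Scalar curvature. -/
def scal (R : Fin 4 → Fin 4 → Fin 4 → Fin 4 → ℝ) : ℝ := ∑ i, ric R i i

namespace SkewPair

variable {R : Fin 4 → Fin 4 → Fin 4 → Fin 4 → ℝ} (h : SkewPair R)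
include h


theorem weyl_plus (hB : R 0 1 2 3 + R 1 2 0 3 + R 2 0 1 3 = 0) :
    normSq R - 2 * ricSq R + 1 / 3 * scal R ^ 2 + 4 * pontr R =
    2 * (2 * ((R 0 1 0 2 - R 0 1 1 3 + R 0 2 2 3 - R 1 3 2 3) ^ 2 + (R 0 1 0 3 + R 0 1 1 2 + R 0 3 2 3 + R 1 2 2 3) ^ 2 + (R 0 2 0 3 + R 0 2 1 2 - R 0 3 1 3 - R 1 2 1 3) ^ 2)
      + 1 / 3 * (((R 0 1 0 1 + 2 * R 0 1 2 3 + R 2 3 2 3) - (R 0 2 0 2 - 2 * R 0 2 1 3 + R 1 3 1 3)) ^ 2 + ((R 0 1 0 1 + 2 * R 0 1 2 3 + R 2 3 2 3) - (R 0 3 0 3 + 2 * R 0 3 1 2 + R 1 2 1 2)) ^ 2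
      + ((R 0 2 0 2 - 2 * R 0 2 1 3 + R 1 3 1 3) - (R 0 3 0 3 + 2 * R 0 3 1 2 + R 1 2 1 2)) ^ 2)) := by
  have hb : R 0 3 1 2 = R 0 2 1 3 - R 0 1 2 3 := by
    have h1 := h.skew 2 0 1 3
    have h2 := h.pair 0 3 1 2
    linarith
  rw [normSq, h.sum_sq, pontr, h.pont, ricSq, scal]
  simp only [Fin.sum_univ_four, h.ric00, h.ric01, h.ric02, h.ric03, h.ric10, h.ric11, h.ric12, h.ric13, h.ric20, h.ric21, h.ric22, h.ric23, h.ric30, h.ric31, h.ric32, h.ric33]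
  rw [hb]
  ring

theorem weyl_minus (hB : R 0 1 2 3 + R 1 2 0 3 + R 2 0 1 3 = 0) :
    normSq R - 2 * ricSq R + 1 / 3 * scal R ^ 2 - 4 * pontr R =
    2 * (2 * ((R 0 1 0 2 + R 0 1 1 3 - R 0 2 2 3 - R 1 3 2 3) ^ 2 + (R 0 1 0 3 - R 0 1 1 2 - R 0 3 2 3 + R 1 2 2 3) ^ 2 + (R 0 2 0 3 - R 0 2 1 2 + R 0 3 1 3 - R 1 2 1 3) ^ 2)
      + 1 / 3 * (((R 0 1 0 1 - 2 * R 0 1 2 3 + R 2 3 2 3) - (R 0 2 0 2 + 2 * R 0 2 1 3 + R 1 3 1 3)) ^ 2 + ((R 0 1 0 1 - 2 * R 0 1 2 3 + R 2 3 2 3) - (R 0 3 0 3 - 2 * R 0 3 1 2 + R 1 2 1 2)) ^ 2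
      + ((R 0 2 0 2 + 2 * R 0 2 1 3 + R 1 3 1 3) - (R 0 3 0 3 - 2 * R 0 3 1 2 + R 1 2 1 2)) ^ 2)) := by
  have hb : R 0 3 1 2 = R 0 2 1 3 - R 0 1 2 3 := by
    have h1 := h.skew 2 0 1 3
    have h2 := h.pair 0 3 1 2
    linarith
  rw [normSq, h.sum_sq, pontr, h.pont, ricSq, scal]
  simp only [Fin.sum_univ_four, h.ric00, h.ric01, h.ric02, h.ric03, h.ric10, h.ric11, h.ric12, h.ric13, h.ric20, h.ric21, h.ric22, h.ric23, h.ric30, h.ric31, h.ric32, h.ric33]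
  rw [hb]
  ring

theorem weyl_ineq (hB : R 0 1 2 3 + R 1 2 0 3 + R 2 0 1 3 = 0) :
    |4 * pontr R| ≤ normSq R - 2 * ricSq R + 1 / 3 * scal R ^ 2 := by
  have h1 := h.weyl_plus hB
  have h2 := h.weyl_minus hB
  rw [abs_le]
  constructor
  · have : 0 ≤ normSq R - 2 * ricSq R + 1 / 3 * scal R ^ 2 + 4 * pontr R := by
      rw [h1]; positivity
    linarith
  · have : 0 ≤ normSq R - 2 * ricSq R + 1 / 3 * scal R ^ 2 - 4 * pontr R := by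
      rw [h2]; positivity
    linarith

end SkewPair

end Pool.Agent.H84.HT
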